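import Mathlib

set_option autoImplicit false

open Set Filter Topology Function Metric unitInterval

namespace Pool.Agent.H.MP_4bbdcb_gt

lemma dclimb (s c : ℕ → ℕ → ℤ) (m n : ℕ)
    (h1 : ∀ i ≤ m, ∀ j ≤ n,
      (s (i + 1) j = s i j ∧ s i (j + 1) = s i j ∧ s (i + 1) (j + 1) = s i j) ∨
      (c (i + 1) j = c i j ∧ c i (j + 1) = c i j ∧ c (i + 1) (j + 1) = c i j))
    (h2 : ∀ i, s i (n + 1) = 1) (h3 : ∀ j, s 0 j = 1)
    (h5 : ∀ i, s (i + 1) 0 = 0) (h6 : ∀ j ≤ n, s (m + 1) j = 0) :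
    c (m + 1) (n + 1) = c 0 0 := by
  have k1 : ∀ i ≤ m, ∀ J ≤ n, ∑ j ∈ Finset.range (J + 1), c (i + 1) j * (s (i + 1) (j + 1) - s (i + 1) j) -
      ∑ j ∈ Finset.range (J + 1), c i j * (s i (j + 1) - s i j) =
      c i J * (s (i + 1) (J + 1) - s i (J + 1)) - c i 0 * (s (i + 1) 0 - s i 0) := by
    intro i hi J
    induction J with
    | zero =>
      intro h
      simp only [zero_add, Finset.sum_range_one]
      rcases h1 i hi 0 h with ⟨a, b, d⟩ | ⟨a, -, -⟩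
      · rw [zero_add] at b d
        rw [a, b, d]; ring
      · rw [a]; ring
    | succ J ih =>
      intro h
      have ih := ih (by omega)
      rw [Finset.sum_range_succ _ (J + 1), Finset.sum_range_succ _ (J + 1)]
      have e : c i J * (s (i + 1) (J + 1) - s i (J + 1)) =
          c i (J + 1) * (s (i + 1) (J + 1) - s i (J + 1)) := by
        rcases h1 i hi J (by omega) with ⟨-, b, d⟩ | ⟨-, b, -⟩
        · rw [b, d]; ring
        · rw [b]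
      rw [e] at ih
      rcases h1 i hi (J + 1) h with ⟨a, b, d⟩ | ⟨a, -, -⟩
      · rw [a] at ih
        rw [a, b, d]
        linear_combination ih
      · rw [a]
        linear_combination ih
  have k2 : ∀ i ≤ m, ∑ j ∈ Finset.range (n + 1), c (i + 1) j * (s (i + 1) (j + 1) - s (i + 1) j) =
      c 0 0 := by
    intro i
    induction i with
    | zero =>
      intro h
      have := k1 0 h n le_rfl
      simp only [h2, h3, h5] at this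
      simpa using this
    | succ i ih =>
      intro h
      have := k1 (i + 1) h n le_rfl
      simp only [h2, h5] at this
      linear_combination ih (by omega) + this
  have := k2 m le_rfl
  rw [Finset.sum_range_succ, Finset.sum_eq_zero fun j hj => by
    rw [h6 j (Finset.mem_range.1 hj).le, h6 (j + 1) (Finset.mem_range.1 hj), sub_self, mul_zero],
    h2, h6 n le_rfl] at this
  rcases h1 m le_rfl n le_rfl with ⟨a, -, d⟩ | ⟨a, -, d⟩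
  · rw [h2] at d
    rw [h6 n le_rfl, ← d] at a
    exact absurd a (by norm_num)
  · rw [d, ← a]
    linear_combination this

lemma grid {a b δ : ℝ} (hab : a ≤ b) {M : ℕ} (hM : b - a ≤ (M + 1) * δ) :
    ∃ x : ℕ → ℝ, x 0 = a ∧ x (M + 1) = b ∧ ∀ i ≤ M, a ≤ x i ∧ x i ≤ x (i + 1) ∧ x (i + 1) ≤ b ∧
      x (i + 1) ≤ x i + δ := by
  have hp : (0 : ℝ) < M + 1 := by positivity
  have h0 : 0 ≤ (b - a) / (M + 1) := div_nonneg (sub_nonneg.2 hab) hp.le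
  have h1 : (b - a) / (M + 1) ≤ δ := by rwa [div_le_iff₀' hp]
  have h2 : (M + 1) * ((b - a) / (M + 1)) = b - a := by field_simp
  refine ⟨fun i => a + i * ((b - a) / (M + 1)), by simp, by push_cast; linarith, fun i hi => ?_⟩
  have h3 : (i : ℝ) ≤ M := by exact_mod_cast hi
  have h4 : (0 : ℝ) ≤ i := i.cast_nonneg
  push_cast
  generalize (b - a) / (M + 1) = q at *
  refine ⟨by nlinarith, by nlinarith, by nlinarith, by nlinarith⟩

lemma jseg {O : Set (ℝ × ℝ)} {p q : ℝ × ℝ} {S : Set (ℝ × ℝ)} (hS : Convex ℝ S) (h : S ⊆ O)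
    (hp : p ∈ S) (hq : q ∈ S) : JoinedIn O p q :=
  JoinedIn.of_segment_subset ((hS.segment_subset hp hq).trans h)

/-- approximate mountain climbing -/
lemma climb (u v : ℝ → ℝ) {a b c d κ η δ : ℝ} (hab : a ≤ b) (hcd : c ≤ d) (hδ : 0 < δ)
    (hκ : 0 ≤ κ)
    (hu : ∀ s ∈ Icc a b, ∀ s' ∈ Icc a b, |s - s'| ≤ δ → |u s - u s'| ≤ η)
    (hv : ∀ s ∈ Icc c d, ∀ s' ∈ Icc c d, |s - s'| ≤ δ → |v s - v s'| ≤ η)
    (h0 : ∀ t ∈ Icc c d, u a ≤ v t + κ) (h1 : ∀ s ∈ Icc a b, u s ≤ v d + κ)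
    (h2 : ∀ s ∈ Icc a b, v c ≤ u s + κ) (h3 : ∀ t ∈ Icc c d, v t ≤ u b + κ) :
    JoinedIn {p : ℝ × ℝ | p.1 ∈ Icc a b ∧ p.2 ∈ Icc c d ∧ |u p.1 - v p.2| ≤ κ + 2 * η}
      (a, c) (b, d) := by
  classical
  obtain ⟨M, hM⟩ := exists_nat_ge (max (b - a) (d - c) / δ)
  rw [div_le_iff₀ hδ] at hM
  obtain ⟨x, x0, x1, x2⟩ := grid (δ := δ) (M := M) hab (by nlinarith [le_max_left (b - a) (d - c)])
  obtain ⟨y, y0, y1, y2⟩ := grid (δ := δ) (M := M) hcd (by nlinarith [le_max_right (b - a) (d - c)])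
  have hη : 0 ≤ η := by simpa using hu a ⟨le_rfl, hab⟩ a ⟨le_rfl, hab⟩ (by simpa using hδ.le)
  set O := {p : ℝ × ℝ | p.1 ∈ Icc a b ∧ p.2 ∈ Icc c d ∧ |u p.1 - v p.2| ≤ κ + 2 * η}
  let s : ℕ → ℕ → ℤ := fun i j =>
    if i = 0 ∨ j = M + 1 then 1 else if i = M + 1 ∨ j = 0 then 0 else if u (x i) ≤ v (y j) then 1 else 0
  have xi : ∀ i ≤ M + 1, x i ∈ Icc a b := fun i hi => by
    rcases i with _ | i
    · exact ⟨x0.ge, x0.le.trans hab⟩
    · obtain ⟨e1, e2, e3, -⟩ := x2 i (by omega)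
      exact ⟨e1.trans e2, e3⟩
  have yi : ∀ i ≤ M + 1, y i ∈ Icc c d := fun i hi => by
    rcases i with _ | i
    · exact ⟨y0.ge, y0.le.trans hcd⟩
    · obtain ⟨e1, e2, e3, -⟩ := y2 i (by omega)
      exact ⟨e1.trans e2, e3⟩
  have s1 : ∀ i ≤ M + 1, ∀ j ≤ M + 1, (s i j = 1 ∧ u (x i) ≤ v (y j) + κ) ∨
      (s i j = 0 ∧ v (y j) ≤ u (x i) + κ) := fun i hi j hj => by
    simp only [s]
    split_ifs with e1 e2 e3
    · rcases e1 with rfl | rfl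
      · exact Or.inl ⟨rfl, x0 ▸ h0 _ (yi j hj)⟩
      · exact Or.inl ⟨rfl, y1 ▸ h1 _ (xi i hi)⟩
    · rcases e2 with rfl | rfl
      · exact Or.inr ⟨rfl, x1 ▸ h3 _ (yi j hj)⟩
      · exact Or.inr ⟨rfl, y0 ▸ h2 _ (xi i hi)⟩
    · exact Or.inl ⟨rfl, by linarith⟩
    · exact Or.inr ⟨rfl, by linarith⟩
  have key := dclimb s (fun i j => if JoinedIn O (a, c) (x i, y j) then 1 else 0) M M
    (fun i hi j hj => ?_) (fun i => by simp [s]) (fun j => by simp [s]) (fun i => by simp [s])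
    (fun j hj => by simp [s, show j ≠ M + 1 by omega])
  · have e : JoinedIn O (a, c) (a, c) := .refl ⟨⟨le_rfl, hab⟩, ⟨le_rfl, hcd⟩, abs_le.2
      ⟨by linarith [h2 a ⟨le_rfl, hab⟩], by linarith [h0 c ⟨le_rfl, hcd⟩]⟩⟩
    simp only [x0, x1, y0, y1, e, if_true] at key
    by_contra h
    simp [h] at key
  obtain ⟨a1, a2, a3, a4⟩ := x2 i hi
  obtain ⟨b1, b2, b3, b4⟩ := y2 j hj
  have sq : ∀ p ∈ Icc (x i) (x (i + 1)) ×ˢ Icc (y j) (y (j + 1)),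
      ∀ q ∈ Icc (x i) (x (i + 1)) ×ˢ Icc (y j) (y (j + 1)),
      |u p.1 - u q.1| ≤ η ∧ |v p.2 - v q.2| ≤ η := fun p hp q hq =>
    ⟨hu _ ⟨a1.trans hp.1.1, hp.1.2.trans a3⟩ _ ⟨a1.trans hq.1.1, hq.1.2.trans a3⟩
      (abs_le.2 ⟨by linarith [hp.1.1, hq.1.2], by linarith [hp.1.2, hq.1.1]⟩),
    hv _ ⟨b1.trans hp.2.1, hp.2.2.trans b3⟩ _ ⟨b1.trans hq.2.1, hq.2.2.trans b3⟩
      (abs_le.2 ⟨by linarith [hp.2.1, hq.2.2], by linarith [hp.2.2, hq.2.1]⟩)⟩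
  have c00 : (x i, y j) ∈ Icc (x i) (x (i + 1)) ×ˢ Icc (y j) (y (j + 1)) :=
    ⟨⟨le_rfl, a2⟩, le_rfl, b2⟩
  have c10 : (x (i + 1), y j) ∈ Icc (x i) (x (i + 1)) ×ˢ Icc (y j) (y (j + 1)) :=
    ⟨⟨a2, le_rfl⟩, le_rfl, b2⟩
  have c01 : (x i, y (j + 1)) ∈ Icc (x i) (x (i + 1)) ×ˢ Icc (y j) (y (j + 1)) :=
    ⟨⟨le_rfl, a2⟩, b2, le_rfl⟩
  have c11 : (x (i + 1), y (j + 1)) ∈ Icc (x i) (x (i + 1)) ×ˢ Icc (y j) (y (j + 1)) :=
    ⟨⟨a2, le_rfl⟩, b2, le_rfl⟩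
  by_cases hs : (s (i + 1) j = s i j ∧ s i (j + 1) = s i j ∧ s (i + 1) (j + 1) = s i j)
  · exact Or.inl hs
  have ex : (∃ p ∈ Icc (x i) (x (i + 1)) ×ˢ Icc (y j) (y (j + 1)), u p.1 ≤ v p.2 + κ) ∧
      ∃ p ∈ Icc (x i) (x (i + 1)) ×ˢ Icc (y j) (y (j + 1)), v p.2 ≤ u p.1 + κ := by
    have e1 := s1 i (by omega) j (by omega)
    have e2 := s1 (i + 1) (by omega) j (by omega)
    have e3 := s1 i (by omega) (j + 1) (by omega)
    have e4 := s1 (i + 1) (by omega) (j + 1) (by omega)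
    constructor <;> by_contra h
    · have f1 := (e1.resolve_left fun f => h ⟨_, c00, f.2⟩).1
      exact hs ⟨(e2.resolve_left fun f => h ⟨_, c10, f.2⟩).1.trans f1.symm,
        (e3.resolve_left fun f => h ⟨_, c01, f.2⟩).1.trans f1.symm,
        (e4.resolve_left fun f => h ⟨_, c11, f.2⟩).1.trans f1.symm⟩
    · have f1 := (e1.resolve_right fun f => h ⟨_, c00, f.2⟩).1
      exact hs ⟨(e2.resolve_right fun f => h ⟨_, c10, f.2⟩).1.trans f1.symm,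
        (e3.resolve_right fun f => h ⟨_, c01, f.2⟩).1.trans f1.symm,
        (e4.resolve_right fun f => h ⟨_, c11, f.2⟩).1.trans f1.symm⟩
  obtain ⟨⟨p, p1, p2⟩, q, q1, q2⟩ := ex
  have hO : Icc (x i) (x (i + 1)) ×ˢ Icc (y j) (y (j + 1)) ⊆ O := fun z hz => by
    obtain ⟨e1, e2⟩ := sq z hz p p1
    obtain ⟨e3, e4⟩ := sq z hz q q1
    rw [abs_le] at e1 e2 e3 e4
    exact ⟨⟨a1.trans hz.1.1, hz.1.2.trans a3⟩, ⟨b1.trans hz.2.1, hz.2.2.trans b3⟩,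
      abs_le.2 ⟨by linarith [e3.1, e4.2], by linarith [e1.2, e2.1]⟩⟩
  have hj : ∀ z ∈ Icc (x i) (x (i + 1)) ×ˢ Icc (y j) (y (j + 1)),
      (JoinedIn O (a, c) z ↔ JoinedIn O (a, c) (x i, y j)) := fun z hz =>
    have := jseg ((convex_Icc _ _).prod (convex_Icc _ _)) hO hz c00
    ⟨fun h => h.trans this, fun h => h.trans this.symm⟩
  exact Or.inr ⟨by simp only [hj _ c10], by simp only [hj _ c01], by simp only [hj _ c11]⟩

lemma lap (u v : ℝ → ℝ) {a b c d L H η δ : ℝ} (hab : a ≤ b) (hcd : c ≤ d) (hδ : 0 < δ)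
    (hu : ∀ s ∈ Icc a b, ∀ s' ∈ Icc a b, |s - s'| ≤ δ → |u s - u s'| ≤ η)
    (hv : ∀ s ∈ Icc c d, ∀ s' ∈ Icc c d, |s - s'| ≤ δ → |v s - v s'| ≤ η)
    (h0 : ∀ s ∈ Icc a b, L - η ≤ u s ∧ u s ≤ H + η) (h1 : ∀ t ∈ Icc c d, L - η ≤ v t ∧ v t ≤ H + η)
    (h2 : (u a ≤ L + 2 * η ∧ v c ≤ L + 2 * η ∧ H - 2 * η ≤ u b ∧ H - 2 * η ≤ v d) ∨
      (u b ≤ L + 2 * η ∧ v d ≤ L + 2 * η ∧ H - 2 * η ≤ u a ∧ H - 2 * η ≤ v c)) :
    JoinedIn {p : ℝ × ℝ | p.1 ∈ Icc a b ∧ p.2 ∈ Icc c d ∧ |u p.1 - v p.2| ≤ 5 * η}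
      (a, c) (b, d) := by
  have hη : 0 ≤ η := by simpa using hu a ⟨le_rfl, hab⟩ a ⟨le_rfl, hab⟩ (by simpa using hδ.le)
  rcases h2 with ⟨e1, e2, e3, e4⟩ | ⟨e1, e2, e3, e4⟩
  · exact (climb u v (κ := 3 * η) hab hcd hδ (by linarith) hu hv
      (fun t ht => by linarith [(h1 t ht).1]) (fun t ht => by linarith [(h0 t ht).2])
      (fun t ht => by linarith [(h0 t ht).1]) (fun t ht => by linarith [(h1 t ht).2])).mono
      fun p hp => ⟨hp.1, hp.2.1, by linarith [hp.2.2]⟩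
  · exact (climb (fun s => -u s) (fun s => -v s) (κ := 3 * η) (η := η) hab hcd hδ (by linarith)
      (fun s hs s' hs' h => by simpa [abs_sub_comm, neg_add_eq_sub] using hu s hs s' hs' h)
      (fun s hs s' hs' h => by simpa [abs_sub_comm, neg_add_eq_sub] using hv s hs s' hs' h)
      (fun t ht => by linarith [(h1 t ht).2]) (fun t ht => by linarith [(h0 t ht).1])
      (fun t ht => by linarith [(h0 t ht).2]) (fun t ht => by linarith [(h1 t ht).1])).mono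
      fun p hp => ⟨hp.1, hp.2.1, by
        have := hp.2.2
        rw [neg_sub_neg, abs_sub_comm] at this
        linarith⟩

end Pool.Agent.H.MP_4bbdcb_gt
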