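import Pool.Agent.H.MP_4bbdcb_gt.A

set_option autoImplicit false

open Set Filter Topology Function Metric unitInterval

namespace Pool.Agent.H.MP_4bbdcb_gt

lemma uc {E : Type*} [PseudoMetricSpace E] {f : ℝ → E} (hf : Continuous f) (a b : ℝ) {η : ℝ}
    (hη : 0 < η) : ∃ δ > 0, ∀ s ∈ Icc a b, ∀ s' ∈ Icc a b, |s - s'| ≤ δ → dist (f s) (f s') ≤ η :=
  Metric.uniformContinuousOn_iff_le.1
    (isCompact_Icc.uniformContinuousOn_of_continuous hf.continuousOn) η hη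

lemma uc' {D E : Type*} [PseudoMetricSpace D] [CompactSpace D] [PseudoMetricSpace E] {f : D → E}
    (hf : Continuous f) {η : ℝ} (hη : 0 < η) :
    ∃ δ > 0, ∀ s s', dist s s' ≤ δ → dist (f s) (f s') ≤ η := by
  obtain ⟨δ, h1, h2⟩ := Metric.uniformContinuous_iff_le.1
    (CompactSpace.uniformContinuous_of_continuous hf) η hη
  exact ⟨δ, h1, fun s s' h => h2 h⟩

lemma repar {f : I → ℝ} (hf : Continuous f) : ∃ p : ℝ → I, Continuous p ∧ (∀ x, f (p 0) ≤ f x) ∧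
    (∀ x, f x ≤ f (p 3)) ∧ p 1 = 0 ∧ p 2 = 1 := by
  obtain ⟨a, -, ha⟩ := isCompact_univ.exists_isMinOn univ_nonempty hf.continuousOn
  obtain ⟨b, -, hb⟩ := isCompact_univ.exists_isMaxOn univ_nonempty hf.continuousOn
  refine ⟨fun x => projIcc 0 1 zero_le_one
    (a * max (1 - x) 0 + min (max (x - 1) 0) 1 - (1 - b) * max (x - 2) 0),
    continuous_projIcc.comp (by fun_prop), fun x => ?_, fun x => ?_, ?_, ?_⟩
  · convert ha (mem_univ x) using 2
    norm_num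
  · convert hb (mem_univ x) using 2
    norm_num
  · norm_num
  · norm_num

lemma unif {c a : I → ℝ} (hc : Continuous c) (ha : Continuous a) (h : range c = range a) {δ : ℝ}
    (hδ : 0 < δ) : ∃ a' b' : I → I, Continuous a' ∧ Continuous b' ∧ Surjective b' ∧
      ∀ u, |c (a' u) - a (b' u)| ≤ δ := by
  obtain ⟨p, p0, p1, p2, -, -⟩ := repar hc
  obtain ⟨q, q0, q1, q2, q3, q4⟩ := repar ha
  obtain ⟨δ1, h1, h2⟩ := uc (hc.comp p0) 0 3 (half_pos hδ)
  obtain ⟨δ2, h3, h4⟩ := uc (ha.comp q0) 0 3 (half_pos hδ)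
  have e1 : ∀ x, ∃ y, c y = a x := fun x => h.ge (mem_range_self x)
  have e2 : ∀ x, ∃ y, a y = c x := fun x => h.le (mem_range_self x)
  obtain ⟨γ, hγ⟩ := climb (c ∘ p) (a ∘ q) (a := 0) (b := 3) (c := 0) (d := 3) (κ := 0) (η := δ / 2)
    (by norm_num) (by norm_num) (lt_min h1 h3) le_rfl
    (fun s hs s' hs' h => h2 s hs s' hs' (h.trans (min_le_left _ _)))
    (fun s hs s' hs' h => h4 s hs s' hs' (h.trans (min_le_right _ _)))
    (fun t _ => by obtain ⟨y, hy⟩ := e1 (q t); simpa [← hy] using p1 y)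
    (fun t _ => by obtain ⟨y, hy⟩ := e2 (p t); simpa [← hy] using q2 y)
    (fun t _ => by obtain ⟨y, hy⟩ := e2 (p t); simpa [← hy] using q1 y)
    (fun t _ => by obtain ⟨y, hy⟩ := e1 (q t); simpa [← hy] using p2 y)
  have c2 : Continuous fun u => (γ u).2 := by fun_prop
  have iv := intermediate_value_univ 0 1 c2
  simp only [γ.source, γ.target] at iv
  obtain ⟨u1, hu1⟩ := iv (show (1 : ℝ) ∈ Icc 0 3 by norm_num)
  obtain ⟨u2, hu2⟩ := iv (show (2 : ℝ) ∈ Icc 0 3 by norm_num)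
  refine ⟨fun u => p (γ u).1, fun u => q (γ u).2, by fun_prop, q0.comp c2, fun z => ?_, fun u => ?_⟩
  · exact (isPreconnected_range (q0.comp c2)).Icc_subset (a := 0) (b := 1)
      ⟨u1, by simp only at hu1; simp [hu1, q3]⟩ ⟨u2, by simp only at hu2; simp [hu2, q4]⟩
      ⟨z.2.1, z.2.2⟩
  · have := (hγ u).2.2
    simp only [comp] at this
    linarith

/-- weakly chainable -/
def WC (Z : Type) [TopologicalSpace Z] : Prop :=
  ∃ (Y : Type) (_ : MetricSpace Y), CompactSpace Y ∧ ConnectedSpace Y ∧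
    (∀ ε : ℝ, ε > 0 → ∃ g : Y → ℝ, Continuous g ∧ ∀ r : ℝ, Metric.diam (g ⁻¹' {r}) < ε) ∧
    ∃ f : Y → Z, Continuous f ∧ Function.Surjective f

lemma nested {X : Type*} [TopologicalSpace X] [T2Space X] [CompactSpace X] (S : ℕ → Set X)
    (h1 : Antitone S) (h2 : ∀ n, IsClosed (S n)) (h3 : ∀ n, IsPreconnected (S n)) :
    IsPreconnected (⋂ n, S n) := by
  refine (isPreconnected_iff_subset_of_fully_disjoint_closed (isClosed_iInter h2)).2
    fun u v hu hv hs hd => ?_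
  obtain ⟨U, V, hU, hV, h4, h5, h6⟩ := normal_separation hu hv hd
  obtain ⟨n, hn⟩ := (hU.union hV).isClosed_compl.isCompact.elim_directed_family_closed S h2
    (eq_empty_of_forall_notMem fun x hx => hx.1 (union_subset_union h4 h5 (hs hx.2)))
    (directed_of_isDirected_le h1)
  have h7 : S n ⊆ U ∪ V := fun x hx => by_contra fun h => (hn ▸ ⟨h, hx⟩ : x ∈ (∅ : Set X))
  rcases (h3 n).subset_or_subset hU hV h6 h7 with h | h
  · exact Or.inl fun x hx => (hs hx).resolve_right fun h8 =>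
      Set.disjoint_left.1 h6 (h (mem_iInter.1 hx n)) (h5 h8)
  · exact Or.inr fun x hx => (hs hx).resolve_left fun h8 =>
      Set.disjoint_left.1 h6 (h4 h8) (h (mem_iInter.1 hx n))

lemma retr (π : ℕ → I → I) (hπ : ∀ n, Continuous (π n)) (n : ℕ) :
    ∃ R : (ℕ → I) → ℕ → I, Continuous R ∧ (∀ x, ∀ k ≥ n, R x k = x k) ∧
      (∀ x, ∀ k < n, R x k = π k (R x (k + 1))) ∧
      ∀ x, (∀ k < n, x k = π k (x (k + 1))) → R x = x := by
  induction n with
  | zero => exact ⟨id, continuous_id, fun _ _ _ => rfl, fun _ _ h => absurd h (by omega),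
      fun _ _ => rfl⟩
  | succ n ih =>
    obtain ⟨R, r1, r2, r3, r4⟩ := ih
    refine ⟨fun x => R (update x n (π n (x (n + 1)))), r1.comp (continuous_id.update n
      ((hπ n).comp (continuous_apply _))), fun x k hk => ?_, fun x k hk => ?_, fun x hx => ?_⟩
    · beta_reduce
      rw [r2 _ k (by omega), update_of_ne (by omega)]
    · rcases Nat.lt_succ_iff_lt_or_eq.1 hk with h | rfl
      · exact r3 _ k h
      · beta_reduce
        rw [r2 _ k le_rfl, r2 _ (k + 1) (by omega), update_self, update_of_ne (by omega)]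
    · simp only [← hx n (by omega), update_eq_self]
      exact r4 x fun k hk => hx k (by omega)

lemma inv {Z : Type} [MetricSpace Z] [CompleteSpace Z] (e : ℕ → I → Z) (π : ℕ → I → I)
    (hπ : ∀ n, Continuous (π n)) (C : ℝ)
    (osc : ∀ n, ∃ δ > 0, ∀ s s', dist s s' < δ → dist (e n s) (e n s') ≤ C / 2 ^ n)
    (den : ∀ n z, ∃ s, dist z (e n s) ≤ C / 2 ^ n)
    (link : ∀ n s, dist (e n (π n s)) (e (n + 1) s) ≤ C / 2 / 2 ^ n) : WC Z := by
  let S : ℕ → Set (ℕ → I) := fun n => {x | ∀ k < n, x k = π k (x (k + 1))}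
  have S1 : Antitone S := fun m n h x hx k hk => hx k (hk.trans_le h)
  have S2 : ∀ n, IsClosed (S n) := fun n => by
    simp only [S, ofPred_forall]
    exact isClosed_iInter fun k => isClosed_iInter fun _ =>
      isClosed_eq (continuous_apply k) ((hπ k).comp (continuous_apply _))
  choose R r1 r2 r3 r4 using retr π hπ
  have S3 : ∀ n, IsPreconnected (S n) := fun n => by
    have : S n = range (R n) := Subset.antisymm (fun x hx => ⟨x, r4 n x hx⟩)
      (by rintro _ ⟨x, rfl⟩; exact r3 n x)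
    exact this ▸ isPreconnected_range (r1 n)
  have lim : ∀ x : ℕ → ℕ → I, (∀ n, x n ∈ S n) → ∃ y ∈ ⋂ n, S n, ∃ φ : ℕ → ℕ, StrictMono φ ∧
      Tendsto (x ∘ φ) atTop (𝓝 y) := fun x hx => by
    obtain ⟨y, -, φ, h1, h2⟩ := isCompact_univ.tendsto_subseq fun n => mem_univ (x n)
    exact ⟨y, mem_iInter.2 fun n => (S2 n).mem_of_tendsto h2 ((eventually_ge_atTop n).mono
      fun k hk => S1 (hk.trans h1.le_apply) (hx _)), φ, h1, h2⟩
  let P := ↥(⋂ n, S n)
  have hP : ∀ (x : P) k, x.1 k = π k (x.1 (k + 1)) := fun x k => mem_iInter.1 x.2 (k + 1) k (by omega)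
  have c1 : CompactSpace P := isCompact_iff_compactSpace.1 (isClosed_iInter S2).isCompact
  obtain ⟨y0, hy0, -⟩ := lim (fun n => R n 0) fun n => r3 n 0
  have c2 : ConnectedSpace P := isConnected_iff_connectedSpace.1 ⟨⟨y0, hy0⟩, nested S S1 S2 S3⟩
  have g1 : ∀ (x : P) n, dist (e n (x.1 n)) (e (n + 1) (x.1 (n + 1))) ≤ C / 2 / 2 ^ n :=
    fun x n => by rw [hP x n]; exact link n _
  choose Ψ hΨ using fun x : P =>
    cauchySeq_tendsto_of_complete (cauchySeq_of_le_geometric_two (g1 x))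
  have g2 := fun (x : P) n => dist_le_of_le_geometric_two_of_tendsto (g1 x) (hΨ x) n
  have small : ∀ ε > 0, ∃ n : ℕ, 4 * (C / 2 ^ n) < ε := fun ε hε => by
    have : Tendsto (fun n : ℕ => 4 * (C / 2 ^ n)) atTop (𝓝 (4 * 0)) :=
      (tendsto_const_nhds.div_atTop (tendsto_pow_atTop_atTop_of_one_lt one_lt_two)).const_mul 4
    exact (this.eventually (gt_mem_nhds (by simpa using hε))).exists
  have pos : ∀ n : ℕ, 0 ≤ C / 2 ^ n := fun n => by
    obtain ⟨s, hs⟩ := den n (e 0 0)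
    exact dist_nonneg.trans hs
  have cΨ : Continuous Ψ := Metric.continuous_iff'.2 fun x ε hε => by
    obtain ⟨n, hn⟩ := small ε hε
    obtain ⟨δ, h1, h2⟩ := osc n
    have : Continuous fun y : P => y.1 n := (continuous_apply n).comp continuous_subtype_val
    filter_upwards [Metric.continuous_iff'.1 this x δ h1] with y hy
    linarith [dist_triangle4 (Ψ y) (e n (y.1 n)) (e n (x.1 n)) (Ψ x), g2 x n, g2 y n, h2 _ _ hy,
      dist_comm (Ψ y) (e n (y.1 n)), pos n]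
  have tele : ∀ n, ∀ x ∈ S n, ∀ m k, m ≤ k → k ≤ n →
      dist (e m (x m)) (e k (x k)) ≤ C / 2 ^ m - C / 2 ^ k := fun n x hx m k hk => by
    induction k, hk using Nat.le_induction with
    | base => simp
    | succ k hk ih =>
      intro h
      have := link k (x (k + 1))
      rw [← hx k h] at this
      have e1 : C / 2 ^ (k + 1) = C / 2 / 2 ^ k := by ring
      have e2 : C / 2 ^ k = 2 * (C / 2 / 2 ^ k) := by ring
      linarith [dist_triangle (e m (x m)) (e k (x k)) (e (k + 1) (x (k + 1))), ih (by omega)]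
  let _ : MetricSpace P := TopologicalSpace.metrizableSpaceMetric P
  refine ⟨P, inferInstance, c1, c2, fun ε hε => ?_, Ψ, cΨ, fun z => ?_⟩
  · by_contra! h
    have cn : ∀ n, Continuous fun y : P => (y.1 n : ℝ) := fun n =>
      continuous_subtype_val.comp ((continuous_apply n).comp continuous_subtype_val)
    obtain ⟨⟨x, y⟩, hz⟩ := IsCompact.nonempty_iInter_of_sequence_nonempty_isCompact_isClosed
      (fun n => {z : P × P | ε / 2 ≤ dist z.1 z.2 ∧ (z.1.1 n : ℝ) = z.2.1 n})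
      (fun n z hz => ⟨hz.1, by rw [hP z.1 n, hP z.2 n, Subtype.ext hz.2]⟩)
      (fun n => by
        obtain ⟨r, hr⟩ := h _ (cn n)
        by_contra h'
        refine (hr.trans (diam_le_of_forall_dist_le (half_pos hε).le fun x hx y hy => ?_)).not_gt
          (half_lt_self hε)
        by_contra! h''
        exact h' ⟨(x, y), h''.le, hx.trans hy.symm⟩)
      (IsClosed.isCompact ((isClosed_le continuous_const continuous_dist).inter
        (isClosed_eq ((cn 0).comp continuous_fst) ((cn 0).comp continuous_snd))))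
      fun n => (isClosed_le continuous_const continuous_dist).inter
        (isClosed_eq ((cn n).comp continuous_fst) ((cn n).comp continuous_snd))
    have h1 : x = y := Subtype.ext (funext fun n => Subtype.ext (mem_iInter.1 hz n).2)
    have h2 := (mem_iInter.1 hz 0).1
    simp only [h1, dist_self] at h2
    linarith
  · choose s hs using fun n => den n z
    obtain ⟨y, hy, φ, h1, h2⟩ := lim (fun n => R n fun _ => s n) fun n => r3 n _
    refine ⟨⟨y, hy⟩, eq_of_forall_dist_le fun ε hε => ?_⟩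
    obtain ⟨m, hm⟩ := small ε hε
    obtain ⟨δ, h3, h4⟩ := osc m
    obtain ⟨n, h5, h6⟩ := ((Metric.tendsto_nhds.1 (tendsto_pi_nhds.1 h2 m) δ h3).and
      (eventually_ge_atTop m)).exists
    have h7 := tele (φ n) _ (r3 (φ n) fun _ => s (φ n)) m (φ n) (h6.trans h1.le_apply) le_rfl
    rw [r2 _ _ _ le_rfl] at h7
    have h8 := h4 _ _ h5
    simp only [comp] at h8
    have h9 := g2 ⟨y, hy⟩ m
    simp only at h9
    linarith [hs (φ n), dist_triangle4 (Ψ ⟨y, hy⟩) (e m (y m)) (e m (R (φ n) (fun _ => s (φ n)) m))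
      (e (φ n) (s (φ n))), dist_triangle_right (Ψ ⟨y, hy⟩) z (e (φ n) (s (φ n))), pos m,
      dist_comm (Ψ ⟨y, hy⟩) (e m (y m)), dist_comm (e m (y m)) (e m (R (φ n) (fun _ => s (φ n)) m))]

def Sync {Z : Type} [MetricSpace Z] (D D' : Set ℝ) (d d' : ℝ → Z) (ε : ℝ) : Prop :=
  ∃ a b : I → ℝ, Continuous a ∧ Continuous b ∧ range a = D ∧ range b = D' ∧
    ∀ u, dist (d (a u)) (d' (b u)) ≤ ε

lemma crit {Z Λ : Type} [MetricSpace Z] [CompleteSpace Z] (D : Λ → Set ℝ) (d : Λ → ℝ → Z)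
    (G : Λ → ℝ → Prop)
    (osc : ∀ l, ∀ ε > 0, G l ε →
      ∃ δ > 0, ∀ s ∈ D l, ∀ s' ∈ D l, |s - s'| ≤ δ → dist (d l s) (d l s') ≤ ε)
    (den : ∀ l, ∀ ε > 0, G l ε → ∀ z, ∃ s ∈ D l, dist z (d l s) ≤ ε)
    (step : ∀ l, ∀ ε > 0, G l ε → ∃ l', G l' (ε / 2) ∧ Sync (D l) (D l') (d l) (d l') ε)
    (h0 : ∃ l, ∃ ε > 0, G l ε) : WC Z := by
  obtain ⟨l0, ε, hε, h0⟩ := h0
  obtain ⟨l1, h1, -, b, -, b1, -, b2, -⟩ := step l0 ε hε h0
  let T := fun n : ℕ => {p : Λ × (I → ℝ) // G p.1 (ε / 2 / 2 ^ n) ∧ Continuous p.2 ∧ range p.2 = D p.1}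
  have st : ∀ n (p : T n), ∃ q : T (n + 1), ∃ π : I → I, Continuous π ∧
      ∀ u, dist (d p.1.1 (p.1.2 (π u))) (d q.1.1 (q.1.2 u)) ≤ 2 * ε / 2 / 2 ^ n := by
    rintro n ⟨⟨l, c⟩, g1, g2, g3⟩
    obtain ⟨l', g4, a, b, a1, b1, a2, b2, h⟩ := step l _ (by positivity) g1
    obtain ⟨δ, hδ, h'⟩ := osc l _ (by positivity) g1
    obtain ⟨a', b', c1, c2, c3, c4⟩ := unif g2 a1 (g3.trans a2.symm) hδ
    refine ⟨⟨(l', b ∘ b'), by convert g4 using 1; ring, b1.comp c2, by rw [c3.range_comp, b2]⟩,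
      a', c1, fun u => ?_⟩
    have e : 2 * ε / 2 / 2 ^ n = ε / 2 / 2 ^ n + ε / 2 / 2 ^ n := by ring
    exact (dist_triangle _ _ _).trans (e ▸ add_le_add
      (h' _ (g3.le (mem_range_self _)) _ (a2.le (mem_range_self _)) (c4 u)) (h _))
  choose nx π π1 π2 using st
  obtain ⟨B, B1⟩ : ∃ B : ∀ n, T n, ∀ n, B (n + 1) = nx n (B n) :=
    ⟨fun n => Nat.rec ⟨(l1, b), by simpa using h1, b1, b2⟩ nx n, fun _ => rfl⟩
  have le : ∀ n : ℕ, ε / 2 / 2 ^ n ≤ 2 * ε / 2 ^ n := fun n =>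
    div_le_div_of_nonneg_right (by linarith) (by positivity)
  refine inv (fun n u => d (B n).1.1 ((B n).1.2 u)) (fun n => π n (B n)) (fun n => π1 n _) (2 * ε)
    (fun n => ?_) (fun n z => ?_) fun n u => by rw [B1]; exact π2 n _ u
  · obtain ⟨g1, g2, g3⟩ := (B n).2
    obtain ⟨δ, hδ, h'⟩ := osc _ _ (by positivity) g1
    obtain ⟨δ', hδ', h⟩ := uc' g2 hδ
    exact ⟨δ', hδ', fun s s' hs => (h' _ (g3.le (mem_range_self _)) _ (g3.le (mem_range_self _))
      (h _ _ hs.le)).trans (le n)⟩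
  · obtain ⟨g1, g2, g3⟩ := (B n).2
    obtain ⟨s, h1, h2⟩ := den _ _ (by positivity) g1 z
    obtain ⟨u, rfl⟩ := g3.ge h1
    exact ⟨u, h2.trans (le n)⟩

lemma sync_of {Z : Type} [MetricSpace Z] {a b a' b' : ℝ} {d d' : ℝ → Z} {ε : ℝ} {O : Set (ℝ × ℝ)}
    (hO : ∀ p ∈ O, p.1 ∈ Icc a b ∧ p.2 ∈ Icc a' b' ∧ dist (d p.1) (d' p.2) ≤ ε)
    {x1 x2 x3 x4 : ℝ} (h1 : JoinedIn O (a, x1) (b, x2)) (h2 : JoinedIn O (b, x2) (x3, a'))
    (h3 : JoinedIn O (x3, a') (x4, b')) : Sync (Icc a b) (Icc a' b') d d' ε := by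
  obtain ⟨γ1, g1⟩ := h1
  obtain ⟨γ2, g2⟩ := h2
  obtain ⟨γ3, g3⟩ := h3
  have r : range (γ1.trans (γ2.trans γ3)) = range γ1 ∪ (range γ2 ∪ range γ3) := by
    rw [Path.trans_range, Path.trans_range]
  generalize γ1.trans (γ2.trans γ3) = γ at r
  have h : ∀ u, γ u ∈ O := fun u => by
    rcases r.le (mem_range_self u) with ⟨v, hv⟩ | ⟨v, hv⟩ | ⟨v, hv⟩
    exacts [hv ▸ g1 v, hv ▸ g2 v, hv ▸ g3 v]
  have c1 : Continuous fun u => (γ u).1 := by fun_prop
  have c2 : Continuous fun u => (γ u).2 := by fun_prop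
  obtain ⟨u1, e1⟩ := r.ge (Or.inl ⟨0, γ1.source⟩)
  obtain ⟨u2, e2⟩ := r.ge (Or.inl ⟨1, γ1.target⟩)
  obtain ⟨u3, e3⟩ := r.ge (Or.inr (Or.inr ⟨0, γ3.source⟩))
  obtain ⟨u4, e4⟩ := r.ge (Or.inr (Or.inr ⟨1, γ3.target⟩))
  refine ⟨_, _, c1, c2, Subset.antisymm (range_subset_iff.2 fun u => (hO _ (h u)).1) ?_,
    Subset.antisymm (range_subset_iff.2 fun u => (hO _ (h u)).2.1) ?_, fun u => (hO _ (h u)).2.2⟩
  · simpa [e1, e2] using intermediate_value_univ u1 u2 c1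
  · simpa [e3, e4] using intermediate_value_univ u3 u4 c2

lemma fib {W E : Type*} [TopologicalSpace W] [CompactSpace W] [PseudoMetricSpace E] {Φ : W → E}
    (hΦ : Continuous Φ) {h : W → ℝ} (hh : Continuous h) {ε : ℝ}
    (h1 : ∀ w w', h w = h w' → dist (Φ w) (Φ w') < ε) :
    ∃ δ > 0, ∀ w w', |h w - h w'| ≤ δ → dist (Φ w) (Φ w') ≤ ε := by
  obtain ⟨δ, h2, h3⟩ := (isClosed_le (f := fun _ : W × W => ε) (g := fun p => dist (Φ p.1) (Φ p.2))
    continuous_const (by fun_prop)).isCompact.exists_forall_le' (a := 0)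
    (f := fun p => |h p.1 - h p.2|) (by fun_prop) fun p hp =>
      abs_pos.2 (sub_ne_zero.2 fun e => (h1 p.1 p.2 e).not_ge hp)
  refine ⟨δ / 2, half_pos h2, fun w w' h4 => ?_⟩
  by_contra! h5
  linarith [h3 (w, w') h5.le]

lemma klem {W Z : Type} [TopologicalSpace W] [CompactSpace W] [ConnectedSpace W] [MetricSpace Z]
    [CompleteSpace Z] {Φ : W → Z} (hΦ : Continuous Φ) (hs : Surjective Φ)
    (hh : ∀ ε > 0, ∃ h : W → ℝ, Continuous h ∧ ∀ w w', h w = h w' → dist (Φ w) (Φ w') < ε) :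
    WC Z := by
  have : Nonempty W := inferInstance
  let G : (W → ℝ) → ℝ → Prop := fun h ε => Continuous h ∧
    ∃ δ > 0, ∀ w w', |h w - h w'| ≤ δ → dist (Φ w) (Φ w') ≤ ε / 2
  have ex : ∀ ε > 0, ∃ h, G h ε := fun ε hε => by
    obtain ⟨h, h1, h2⟩ := hh _ (half_pos hε)
    exact ⟨h, h1, fib hΦ h1 h2⟩
  have rg : ∀ h : W → ℝ, Continuous h → ∃ a b, range h = Icc (h a) (h b) := fun h h1 => by
    obtain ⟨a, -, ha⟩ := isCompact_univ.exists_isMinOn univ_nonempty h1.continuousOn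
    obtain ⟨b, -, hb⟩ := isCompact_univ.exists_isMaxOn univ_nonempty h1.continuousOn
    exact ⟨a, b, Subset.antisymm (range_subset_iff.2 fun w => ⟨ha (mem_univ w), hb (mem_univ w)⟩)
      (intermediate_value_univ a b h1)⟩
  refine crit range (fun h s => Φ (invFun h s)) G ?_ ?_ ?_ ⟨_, 1, one_pos, (ex 1 one_pos).choose_spec⟩
  · rintro h ε hε ⟨-, δ, h1, h2⟩
    refine ⟨δ, h1, fun s hs s' hs' h3 => (h2 _ _ ?_).trans (half_le_self hε.le)⟩
    rwa [invFun_eq hs, invFun_eq hs']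
  · rintro h ε hε ⟨-, δ, h1, h2⟩ z
    obtain ⟨w, rfl⟩ := hs z
    refine ⟨h w, mem_range_self w, (h2 _ _ ?_).trans (half_le_self hε.le)⟩
    simpa [invFun_eq (mem_range_self w : ∃ a, h a = h w)] using h1.le
  rintro h ε hε ⟨h0, δ, h1, h2⟩
  obtain ⟨k, k0, δ', k1, k2⟩ := ex _ (half_pos hε)
  refine ⟨k, ⟨k0, δ', k1, k2⟩, ?_⟩
  obtain ⟨a, b, e⟩ := rg h h0
  obtain ⟨a', b', e'⟩ := rg k k0
  let O := {p : ℝ × ℝ | p ∈ range h ×ˢ range k ∧ ∃ w, |p.1 - h w| ≤ δ ∧ |p.2 - k w| ≤ δ'}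
  have key : ∀ w w', JoinedIn O (h w, k w) (h w', k w') := by
    refine PreconnectedSpace.induction₂' (fun w w' => JoinedIn O (h w, k w) (h w', k w'))
      (fun w => ?_) ⟨fun x y z p q => p.trans q⟩
    filter_upwards [Metric.continuous_iff'.1 h0 w δ h1, Metric.continuous_iff'.1 k0 w δ' k1]
      with w' p q
    have : JoinedIn O (h w, k w) (h w', k w') := jseg
      (S := (range h ∩ closedBall (h w) δ) ×ˢ (range k ∩ closedBall (k w) δ'))
      (((e ▸ convex_Icc _ _).inter (convex_closedBall _ _)).prod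
        ((e' ▸ convex_Icc _ _).inter (convex_closedBall _ _)))
      (fun p hp => ⟨⟨hp.1.1, hp.2.1⟩, w, hp.1.2, hp.2.2⟩)
      ⟨⟨mem_range_self _, mem_closedBall_self h1.le⟩, mem_range_self _, mem_closedBall_self k1.le⟩
      ⟨⟨mem_range_self _, p.le⟩, mem_range_self _, q.le⟩
    exact ⟨this, this.symm⟩
  rw [e, e']
  refine sync_of (O := O) ?_ (key a b) (key b a') (key a' b')
  rintro p ⟨⟨p1, p2⟩, w, p3, p4⟩
  refine ⟨e ▸ p1, e' ▸ p2, ?_⟩
  have q1 := h2 (invFun h p.1) w (by rwa [invFun_eq p1])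
  have q2 := k2 (invFun k p.2) w (by rwa [invFun_eq p2])
  linarith [dist_triangle_right (Φ (invFun h p.1)) (Φ (invFun k p.2)) (Φ w)]

end Pool.Agent.H.MP_4bbdcb_gt
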