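import Pool.Agent.H.MP_4bbdcb_gt.B

set_option autoImplicit false

open Set Filter Topology Function Metric unitInterval

namespace Pool.Agent.H.MP_4bbdcb_gt

noncomputable def glob {Z K : Type} (d : K → ℝ → Z) (w : ℕ → K) (s : ℝ) : Z :=
  d (w ⌊s / 2⌋₊) |s - 2 * ⌊s / 2⌋₊ - 1|

lemma glob_eq {Z K : Type} {d : K → ℝ → Z} {z0 : Z} (h : ∀ τ, d τ 1 = z0) (w : ℕ → K) (i : ℕ)
    {s : ℝ} (h1 : 2 * i ≤ s) (h2 : s ≤ 2 * i + 2) : glob d w s = d (w i) |s - 2 * i - 1| := by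
  have h0 : (0 : ℝ) ≤ i := i.cast_nonneg
  rcases h2.eq_or_lt with rfl | h2
  · have e : ⌊(2 * (i : ℝ) + 2) / 2⌋₊ = i + 1 := by
      rw [Nat.floor_eq_iff (by linarith)]
      push_cast
      constructor <;> linarith
    have e1 : |2 * (i : ℝ) + 2 - 2 * ((i + 1 : ℕ) : ℝ) - 1| = 1 := by
      push_cast
      rw [show 2 * (i : ℝ) + 2 - 2 * (i + 1) - 1 = -1 by ring]
      simp
    have e2 : |2 * (i : ℝ) + 2 - 2 * i - 1| = 1 := by
      rw [show 2 * (i : ℝ) + 2 - 2 * i - 1 = 1 by ring]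
      simp
    rw [glob, e, e1, e2, h, h]
  · have e : ⌊s / 2⌋₊ = i := by
      rw [Nat.floor_eq_iff (by linarith)]
      constructor <;> linarith
    rw [glob, e]

lemma glob_osc {Z K : Type} [MetricSpace Z] {d : K → ℝ → Z} {z0 : Z} (h : ∀ τ, d τ 1 = z0)
    (w : ℕ → K) (k : ℕ) {ε : ℝ}
    (osc : ∀ τ, ∃ δ > 0, ∀ s ∈ Icc (0 : ℝ) 1, ∀ s' ∈ Icc (0 : ℝ) 1, |s - s'| ≤ δ →
      dist (d τ s) (d τ s') ≤ ε / 2) :
    ∃ δ > 0, ∀ s ∈ Icc (0 : ℝ) (2 * k), ∀ s' ∈ Icc (0 : ℝ) (2 * k), |s - s'| ≤ δ →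
      dist (glob d w s) (glob d w s') ≤ ε := by
  choose δ δ1 δ2 using osc
  obtain ⟨i0, -, hi0⟩ := (Finset.range (k + 2)).exists_min_image (fun i => δ (w i)) ⟨0, by simp⟩
  have pc : ∀ i : ℕ, i ≤ k + 1 → ∀ s s' : ℝ, 2 * i ≤ s → s ≤ s' → s' ≤ 2 * i + 2 →
      s' - s ≤ δ (w i0) → dist (glob d w s) (glob d w s') ≤ ε / 2 := fun i hi s s' a b c e => by
    rw [glob_eq h w i a (b.trans c), glob_eq h w i (a.trans b) c]
    refine δ2 _ _ ⟨abs_nonneg _, abs_le.2 ⟨by linarith, by linarith⟩⟩ _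
      ⟨abs_nonneg _, abs_le.2 ⟨by linarith, by linarith⟩⟩ ((abs_abs_sub_abs_le _ _).trans ?_)
    have := hi0 i (Finset.mem_range.2 (by omega))
    exact abs_le.2 ⟨by linarith, by linarith [δ1 (w i)]⟩
  have main : ∀ s ∈ Icc (0 : ℝ) (2 * k), ∀ s', s ≤ s' → s' - s ≤ min (δ (w i0)) 1 →
      dist (glob d w s) (glob d w s') ≤ ε := fun s hs s' a b => by
    have b1 := b.trans (min_le_left _ _)
    have b2 := b.trans (min_le_right _ _)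
    have f1 := Nat.floor_le (show 0 ≤ s / 2 by linarith [hs.1])
    have f2 := Nat.lt_floor_add_one (s / 2)
    have f3 : ⌊s / 2⌋₊ ≤ k := Nat.floor_le_of_le (by linarith [hs.2])
    generalize ⌊s / 2⌋₊ = i at f1 f2 f3
    have f4 := pc i (by omega) s s (by linarith) le_rfl (by linarith) (by simpa using (δ1 _).le)
    rw [dist_self] at f4
    rcases le_total s' (2 * i + 2) with c | c
    · linarith [pc i (by omega) s s' (by linarith) a c b1]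
    · linarith [pc i (by omega) s (2 * i + 2) (by linarith) (by linarith) le_rfl (by linarith),
        pc (i + 1) (by omega) (2 * i + 2) s' (by push_cast; linarith) c (by push_cast; linarith)
          (by linarith), dist_triangle (glob d w s) (glob d w (2 * i + 2)) (glob d w s')]
  refine ⟨_, lt_min (δ1 (w i0)) one_pos, fun s hs s' hs' e => ?_⟩
  rcases le_total s s' with c | c
  · exact main s hs s' c (by linarith [(abs_le.1 e).1])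
  · exact dist_comm (glob d w s') _ ▸ main s' hs' s c (abs_le.1 e).2

lemma glob_sync {Z K : Type} [MetricSpace Z] {d d' : K → ℝ → Z} {z0 : Z} (h : ∀ τ, d τ 1 = z0)
    (h' : ∀ τ, d' τ 1 = z0) (w w' : ℕ → K) {k r : ℕ} (hk : 0 < k) (hr : 0 < r) {ε : ℝ}
    (sy : ∀ j, JoinedIn {p : ℝ × ℝ | p.1 ∈ Icc (0 : ℝ) 1 ∧ p.2 ∈ Icc (0 : ℝ) 1 ∧
      dist (d (w (j / r)) p.1) (d' (w' j) p.2) ≤ ε} (0, 0) (1, 1)) :
    Sync (Icc 0 (2 * (k : ℝ))) (Icc 0 (2 * ((k * r : ℕ) : ℝ))) (glob d w) (glob d' w') ε := by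
  let O := {p : ℝ × ℝ | p.1 ∈ Icc 0 (2 * (k : ℝ)) ∧ p.2 ∈ Icc 0 (2 * ((k * r : ℕ) : ℝ)) ∧
    dist (glob d w p.1) (glob d' w' p.2) ≤ ε}
  have ce : ∀ j < k * r, ∀ ς ω : ℝ, |ς| = 1 → |ω| = 1 →
      JoinedIn O (2 * (j / r : ℕ) + 1, 2 * j + 1) (2 * (j / r : ℕ) + 1 + ς, 2 * j + 1 + ω) := by
    intro j hj ς ω h1 h2
    have a1 : ((j / r : ℕ) : ℝ) + 1 ≤ k := by
      exact_mod_cast (Nat.div_lt_iff_lt_mul hr).2 hj
    have a2 : (j : ℝ) + 1 ≤ (k * r : ℕ) := by exact_mod_cast hj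
    have sy := sy j
    generalize j / r = i at a1 sy ⊢
    have := (sy.map (f := fun p : ℝ × ℝ => (2 * (i : ℝ) + 1 + ς * p.1, 2 * (j : ℝ) + 1 + ω * p.2))
      (by fun_prop)).mono (V := O) (by
      rintro _ ⟨p, ⟨p1, p2, p3⟩, rfl⟩
      have b1 : |ς * p.1| = p.1 := by rw [abs_mul, h1, one_mul, abs_of_nonneg p1.1]
      have b2 : |ω * p.2| = p.2 := by rw [abs_mul, h2, one_mul, abs_of_nonneg p2.1]
      obtain ⟨c1, c2⟩ := abs_le.1 (b1.le.trans p1.2)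
      obtain ⟨c3, c4⟩ := abs_le.1 (b2.le.trans p2.2)
      have i0 : (0 : ℝ) ≤ i := i.cast_nonneg
      have j0 : (0 : ℝ) ≤ j := j.cast_nonneg
      refine ⟨⟨by dsimp only; linarith, by dsimp only; linarith⟩,
        ⟨by dsimp only; linarith, by dsimp only; linarith⟩, ?_⟩
      dsimp only
      rw [glob_eq h w i (by linarith) (by linarith), glob_eq h' w' j (by linarith) (by linarith),
        show 2 * (i : ℝ) + 1 + ς * p.1 - 2 * i - 1 = ς * p.1 by ring,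
        show 2 * (j : ℝ) + 1 + ω * p.2 - 2 * j - 1 = ω * p.2 by ring, b1, b2]
      exact p3)
    simpa using this
  have key : ∀ j ≤ k * r, JoinedIn O (0, 0) (2 * (j / r : ℕ), 2 * j) := by
    intro j
    induction j with
    | zero =>
      intro _
      have := (ce 0 (Nat.mul_pos hk hr) (-1) (-1) (by simp) (by simp)).target_mem
      simpa using JoinedIn.refl (by simpa using this)
    | succ j ih =>
      intro hj
      have a1 := (ce j hj (-1) (-1) (by simp) (by simp)).symm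
      simp only [add_neg_cancel_right] at a1
      refine (ih (by omega)).trans (a1.trans ?_)
      rw [Nat.succ_div]
      split_ifs
      · convert ce j hj 1 1 (by simp) (by simp) using 2 <;> push_cast <;> ring
      · convert ce j hj (-1) 1 (by simp) (by simp) using 2 <;> push_cast <;> ring
  have := key _ le_rfl
  rw [Nat.mul_div_cancel _ hr] at this
  exact sync_of (O := O) (fun p hp => hp) this this.symm this

lemma fan {Z Λ K : Type} [MetricSpace Z] [CompleteSpace Z] (C : ℝ → K → K → Prop)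
    (hC : ∀ ξ > 0, ∀ τ, C ξ τ τ)
    (net : ∀ ξ > 0, ∃ (r : ℕ) (w : ℕ → K), 0 < r ∧ ∀ τ, ∃ m < r, C ξ (w m) τ)
    (d : Λ → K → ℝ → Z) (G : Λ → ℝ → Prop) (z0 : Z) (hend : ∀ l τ, d l τ 1 = z0)
    (osc : ∀ l, ∀ ε > 0, G l ε → ∀ τ, ∃ δ > 0, ∀ s ∈ Icc (0 : ℝ) 1, ∀ s' ∈ Icc (0 : ℝ) 1,
      |s - s'| ≤ δ → dist (d l τ s) (d l τ s') ≤ ε)
    (den : ∀ z, ∃ τ, ∀ l ξ τ', C ξ τ' τ → dist z (d l τ' 0) ≤ ξ)
    (step : ∀ l, ∀ ε > 0, G l ε → ∃ ξ > 0, ξ ≤ ε ∧ ∃ l', G l' (ε / 2) ∧ ∀ τ τ', C ξ τ τ' →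
      JoinedIn {p : ℝ × ℝ | p.1 ∈ Icc (0 : ℝ) 1 ∧ p.2 ∈ Icc (0 : ℝ) 1 ∧
        dist (d l τ p.1) (d l' τ' p.2) ≤ ε} (0, 0) (1, 1))
    (h0 : ∃ l, ∃ ε > 0, G l ε) : WC Z := by
  classical
  refine crit (Λ := Λ × ℕ × (ℕ → K)) (fun l => Icc 0 (2 * (l.2.1 : ℝ)))
    (fun l => glob (d l.1) l.2.2)
    (fun l ε => G l.1 (ε / 2) ∧ 0 < l.2.1 ∧ ∃ ξ > 0, ξ ≤ ε / 2 ∧ (∀ τ, ∃ i < l.2.1, C ξ (l.2.2 i) τ) ∧
      ∃ l', G l' (ε / 2 / 2) ∧ ∀ τ τ', C ξ τ τ' →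
      JoinedIn {p : ℝ × ℝ | p.1 ∈ Icc (0 : ℝ) 1 ∧ p.2 ∈ Icc (0 : ℝ) 1 ∧
        dist (d l.1 τ p.1) (d l' τ' p.2) ≤ ε / 2} (0, 0) (1, 1)) ?_ ?_ ?_ ?_
  · rintro ⟨l, k, w⟩ ε hε ⟨h1, -⟩
    exact glob_osc (hend l) w k (osc l _ (half_pos hε) h1)
  · rintro ⟨l, k, w⟩ ε hε ⟨-, -, ξ, -, h1, h2, -⟩ z
    obtain ⟨τ, hτ⟩ := den z
    obtain ⟨i, h3, h4⟩ := h2 τ
    have h5 : (i : ℝ) + 1 ≤ k := by exact_mod_cast h3
    have i0 : (0 : ℝ) ≤ i := i.cast_nonneg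
    refine ⟨2 * i + 1, ⟨by linarith, by dsimp only; linarith⟩, ?_⟩
    dsimp only
    rw [glob_eq (hend l) w i (by linarith) (by linarith)]
    simpa using (hτ l ξ _ h4).trans (h1.trans (half_le_self hε.le))
  · rintro ⟨l, k, w⟩ ε hε ⟨-, hk, ξ, hξ, -, h2, l', h3, h4⟩
    obtain ⟨ξ', a1, a2, a3⟩ := step l' _ (by positivity) h3
    obtain ⟨r, v, hr, hv⟩ := net ξ' a1
    refine ⟨(l', k * r, fun j => if C ξ (w (j / r)) (v (j % r)) then v (j % r) else w (j / r)),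
      ⟨h3, Nat.mul_pos hk hr, ξ', a1, a2, fun τ => ?_, a3⟩,
      glob_sync (hend l) (hend l') w _ hk hr fun j => (h4 _ _ ?_).mono
        fun p hp => ⟨hp.1, hp.2.1, hp.2.2.trans (half_le_self hε.le)⟩⟩
    · obtain ⟨m, m1, m2⟩ := hv τ
      obtain ⟨i, i1, i2⟩ := h2 (v m)
      have e1 : (m + r * i) / r = i := by rw [Nat.add_mul_div_left _ _ hr, Nat.div_eq_of_lt m1, zero_add]
      have e2 : (m + r * i) % r = m := by rw [Nat.add_mul_mod_self_left, Nat.mod_eq_of_lt m1]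
      refine ⟨m + r * i, by dsimp only at i1 ⊢; nlinarith, ?_⟩
      dsimp only at i2 ⊢
      rwa [e1, e2, if_pos i2]
    · dsimp only
      split_ifs with h
      exacts [h, hC ξ hξ _]
  · obtain ⟨l, ε, hε, h1⟩ := h0
    obtain ⟨ξ, a1, a2, a3⟩ := step l _ hε h1
    obtain ⟨r, v, hr, hv⟩ := net ξ a1
    refine ⟨(l, r, v), 2 * ε, by linarith, ?_⟩
    rw [mul_div_cancel_left₀ _ two_ne_zero]
    exact ⟨h1, hr, ξ, a1, a2, hv, a3⟩

lemma nets {K E : Type} [MetricSpace E] [CompactSpace E] [Nonempty K] (F : K → ℝ → E)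
    (eq : ∀ ε > 0, ∃ δ > 0, ∀ τ r r', |r - r'| ≤ δ → dist (F τ r) (F τ r') ≤ ε) {ξ : ℝ} (hξ : 0 < ξ) :
    ∃ (r : ℕ) (w : ℕ → K), 0 < r ∧ ∀ τ, ∃ m < r, ∀ s ∈ Icc (0 : ℝ) 1, dist (F (w m) s) (F τ s) ≤ ξ := by
  obtain ⟨δ, hδ, h⟩ := eq (ξ / 3) (by linarith)
  obtain ⟨t, -, t1, t2⟩ := finite_cover_balls_of_compact (isCompact_Icc (a := (0 : ℝ)) (b := 1)) hδ
  have := t1.to_subtype
  have := Fintype.ofFinite t
  obtain ⟨u, u1, u2, u3⟩ := finite_approx_of_totallyBounded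
    ((isCompact_univ (X := t → E)).totallyBounded.subset
      (subset_univ (range fun τ (x : t) => F τ x))) (ξ / 3) (by linarith)
  have := u2.to_subtype
  obtain ⟨n, ⟨e⟩⟩ := Finite.exists_equiv_fin u
  choose w hw using fun x : u => u1 x.2
  refine ⟨n + 1, fun m => if h : m < n then w (e.symm ⟨m, h⟩) else Classical.arbitrary K,
    n.succ_pos, fun τ => ?_⟩
  obtain ⟨y, y1, y2⟩ := mem_iUnion₂.1 (u3 (mem_range_self τ))
  refine ⟨e ⟨y, y1⟩, (e ⟨y, y1⟩).2.trans n.lt_succ_self, fun s hs => ?_⟩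
  obtain ⟨x, x1, x2⟩ := mem_iUnion₂.1 (t2 hs)
  simp only [Fin.is_lt, dif_pos, Fin.eta, Equiv.symm_apply_apply]
  have a1 := (dist_le_pi_dist _ _ ⟨x, x1⟩).trans (le_of_lt y2)
  have a2 : y ⟨x, x1⟩ = F (w ⟨y, y1⟩) x := (congrFun (hw ⟨y, y1⟩) ⟨x, x1⟩).symm
  rw [a2] at a1
  dsimp only at a1
  linarith [h τ s x (le_of_lt x2), h (w ⟨y, y1⟩) s x (le_of_lt x2),
    dist_triangle4 (F (w ⟨y, y1⟩) s) (F (w ⟨y, y1⟩) x) (F τ x) (F τ s), dist_comm (F τ x) (F τ s),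
    dist_comm (F τ x) (F (w ⟨y, y1⟩) x)]

end Pool.Agent.H.MP_4bbdcb_gt
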