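import Pool.Agent.H.MP_4bbdcb_gt.C

set_option autoImplicit false

open Set Filter Topology Function Metric unitInterval TopologicalSpace

namespace Pool.Agent.H.MP_4bbdcb_gt

lemma zig {N : ℕ} (hN : 0 < N) {q : ℝ} (hq : N * q = 1) (l h u v : ℝ → ℝ) {η δ : ℝ} (hη : 0 < η)
    (hδ : 0 < δ) (u0 : Continuous u) (u1 : ∀ r, l r ≤ u r ∧ u r ≤ h r)
    (u2 : ∀ j : ℕ, (Even j → u (j * q) = l (j * q)) ∧ (¬ Even j → u (j * q) = h (j * q)))
    (v0 : ∀ s ∈ Icc (0 : ℝ) 1, ∀ s' ∈ Icc (0 : ℝ) 1, |s - s'| ≤ δ → |v s - v s'| ≤ η)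
    (v1 : ∀ r ∈ Icc (0 : ℝ) 1, l r - η / 2 ≤ v r ∧ v r ≤ h r + η / 2)
    (lh : ∀ r r', |r - r'| ≤ 2 * q → |l r - l r'| ≤ η / 2 ∧ |h r - h r'| ≤ η / 2)
    (cp : ∀ r ∈ Icc (0 : ℝ) 1, (∃ t ∈ Icc r (r + q), v t ≤ l r + 3 * η / 2) ∧
      ∃ t ∈ Icc r (r + q), h r - 3 * η / 2 ≤ v t)
    (e0 : v 0 ≤ l 0 + η) (e1 : v 1 ≤ l 1 + η) (e2 : h 1 - η ≤ v 1) :
    JoinedIn {p : ℝ × ℝ | p.1 ∈ Icc (0 : ℝ) 1 ∧ p.2 ∈ Icc (0 : ℝ) 1 ∧ |u p.1 - v p.2| ≤ 5 * η}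
      (0, 0) (1, 1) := by
  have N0 : (0 : ℝ) < N := by exact_mod_cast hN
  have q0 : 0 < q := by nlinarith
  have ex : ∀ j : ℕ, ∃ t, j ≤ N → t ∈ Icc (j * q) (j * q + q) ∧ t ≤ 1 ∧
      (Even j → v t ≤ l (j * q) + 3 * η / 2) ∧ (¬ Even j → h (j * q) - 3 * η / 2 ≤ v t) ∧
      (j = 0 → t = 0) ∧ (j = N → t = 1) := fun j => by
    rcases j.eq_zero_or_pos with rfl | j0
    · exact ⟨0, fun _ => ⟨by simpa using q0.le, zero_le_one, fun _ => by simp; linarith,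
        fun h => absurd Even.zero h, fun _ => rfl, fun h => absurd h hN.ne⟩⟩
    rcases lt_trichotomy j N with j1 | rfl | j1
    · have a1 : (j : ℝ) + 1 ≤ N := by exact_mod_cast j1
      have a2 : j * q + q ≤ 1 := by nlinarith
      obtain ⟨⟨t, t1, t2⟩, s, s1, s2⟩ := cp (j * q) ⟨by positivity, by linarith⟩
      by_cases hj : Even j
      · exact ⟨t, fun _ => ⟨t1, t1.2.trans a2, fun _ => t2, fun h => absurd hj h,
          fun h => absurd h j0.ne', fun h => absurd h j1.ne⟩⟩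
      · exact ⟨s, fun _ => ⟨s1, s1.2.trans a2, fun h => absurd h hj, fun _ => s2,
          fun h => absurd h j0.ne', fun h => absurd h j1.ne⟩⟩
    · exact ⟨1, fun _ => by
        rw [hq]
        exact ⟨⟨le_rfl, by linarith⟩, le_rfl, fun _ => by linarith, fun _ => by linarith,
          fun h => absurd h j0.ne', fun _ => rfl⟩⟩
    · exact ⟨0, fun h => absurd h j1.not_ge⟩
  choose t ht using ex
  obtain ⟨δ', d1, d2⟩ := uc u0 0 1 hη
  set O := {p : ℝ × ℝ | p.1 ∈ Icc (0 : ℝ) 1 ∧ p.2 ∈ Icc (0 : ℝ) 1 ∧ |u p.1 - v p.2| ≤ 5 * η}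
  have one : ∀ j : ℕ, j < N → JoinedIn O (j * q, t j) ((j + 1 : ℕ) * q, t (j + 1)) := fun j hj => by
    obtain ⟨⟨a1, a2⟩, a3, a4, a5, -⟩ := ht j hj.le
    obtain ⟨⟨b1, b2⟩, b3, b4, b5, -⟩ := ht (j + 1) hj
    obtain ⟨c1, c2⟩ := u2 j
    obtain ⟨c3, c4⟩ := u2 (j + 1)
    have f1 : ((j + 1 : ℕ) : ℝ) * q = j * q + q := by push_cast; ring
    have f2 : (j : ℝ) + 1 ≤ N := by exact_mod_cast hj
    have f3 : j * q + q ≤ 1 := by nlinarith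
    have f4 : 0 ≤ j * q := by positivity
    rw [Nat.even_add_one] at b4 b5 c3 c4
    rw [f1] at b1 b2 b4 b5 c3 c4 ⊢
    clear f1 ht u2
    generalize j * q = x at *
    have k : ∀ r ∈ Icc x (x + 2 * q), l x - η / 2 ≤ l r ∧ l r ≤ l x + η / 2 ∧ h x - η / 2 ≤ h r ∧
        h r ≤ h x + η / 2 := fun r hr => by
      obtain ⟨k1, k2⟩ := lh r x (abs_le.2 ⟨by linarith [hr.1], by linarith [hr.2]⟩)
      rw [abs_le] at k1 k2
      exact ⟨by linarith [k1.1], by linarith [k1.2], by linarith [k2.1], by linarith [k2.2]⟩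
    have s1 : Icc x (x + q) ⊆ Icc 0 1 := Icc_subset_Icc f4 f3
    have s2 : Icc (t j) (t (j + 1)) ⊆ Icc 0 1 := Icc_subset_Icc (f4.trans a1) b3
    obtain ⟨k1, k2, k3, k4⟩ := k (x + q) ⟨by linarith, by linarith⟩
    refine (lap u v (L := l x) (H := h x) (η := η) (by linarith) (a2.trans b1) (lt_min d1 hδ)
      (fun s hs s' hs' e => d2 s (s1 hs) s' (s1 hs') (e.trans (min_le_left _ _)))
      (fun s hs s' hs' e => v0 s (s2 hs) s' (s2 hs') (e.trans (min_le_right _ _)))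
      (fun s hs => ?_) (fun s hs => ?_) ?_).mono fun p hp => ⟨s1 hp.1, s2 hp.2.1, hp.2.2⟩
    · obtain ⟨k1, -, -, k4⟩ := k s ⟨hs.1, by linarith [hs.2]⟩
      exact ⟨by linarith [(u1 s).1], by linarith [(u1 s).2]⟩
    · obtain ⟨k1, -, -, k4⟩ := k s ⟨a1.trans hs.1, by linarith [hs.2]⟩
      exact ⟨by linarith [(v1 s (s2 hs)).1], by linarith [(v1 s (s2 hs)).2]⟩
    · by_cases hj : Even j
      · exact Or.inl ⟨by linarith [c1 hj], by linarith [a4 hj], by linarith [c4 (not_not.2 hj)],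
          by linarith [b5 (not_not.2 hj)]⟩
      · exact Or.inr ⟨by linarith [c3 hj], by linarith [b4 hj], by linarith [c2 hj],
          by linarith [a5 hj]⟩
  have key : ∀ j : ℕ, j ≤ N → JoinedIn O (0, 0) (j * q, t j) := fun j => by
    induction j with
    | zero =>
      intro h
      have := JoinedIn.refl (one 0 hN).source_mem
      simpa [(ht 0 h).2.2.2.2.1 rfl] using this
    | succ j ih => exact fun h => (ih (by omega)).trans (one j h)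
  simpa [hq, (ht N le_rfl).2.2.2.2.2 rfl] using key N le_rfl

noncomputable def θ (x : ℝ) : ℝ := (1 - Real.cos (x * Real.pi)) / 2

lemma θ_cont : Continuous θ := by unfold θ; fun_prop

lemma θ_mem (x : ℝ) : 0 ≤ θ x ∧ θ x ≤ 1 :=
  ⟨by unfold θ; linarith [Real.cos_le_one (x * Real.pi)],
    by unfold θ; linarith [Real.neg_one_le_cos (x * Real.pi)]⟩

lemma θ_nat (j : ℕ) : (Even j → θ j = 0) ∧ (¬ Even j → θ j = 1) :=
  ⟨fun h => by simp [θ, Real.cos_nat_mul_pi, h.neg_one_pow],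
    fun h => by simp [θ, Real.cos_nat_mul_pi, (Nat.not_even_iff_odd.1 h).neg_one_pow]⟩

lemma θ_surj {c : ℝ} (h0 : 0 ≤ c) (h1 : c ≤ 1) (a : ℝ) : ∃ x ∈ Ico a (a + 2), θ x = c := by
  have p : Periodic θ 2 := fun x => by simp [θ, add_mul, Real.cos_add_two_pi]
  obtain ⟨x, x1, x2⟩ := p.exists_mem_Ico two_pos (Real.arccos (1 - 2 * c) / Real.pi) a
  refine ⟨x, x1, x2 ▸ ?_⟩
  rw [θ, div_mul_cancel₀ _ Real.pi_ne_zero, Real.cos_arccos (by linarith) (by linarith)]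
  ring

section
variable {Y : Type} [MetricSpace Y]

lemma near {A B : NonemptyCompacts Y} {r : ℝ} (h : dist A B < r) {x : Y} (hx : x ∈ (A : Set Y)) :
    ∃ y ∈ (B : Set Y), dist x y < r :=
  exists_dist_lt_of_hausdorffDist_lt hx h (edist_ne_top A B)

lemma lo_ex [CompactSpace Y] {g : Y → ℝ} (hg : Continuous g) : ∃ lo : NonemptyCompacts Y → ℝ,
    Continuous lo ∧ ∀ B : NonemptyCompacts Y, (∀ y ∈ (B : Set Y), lo B ≤ g y) ∧ ∃ y ∈ (B : Set Y), g y = lo B := by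
  choose m m1 m2 using fun B : NonemptyCompacts Y =>
    B.isCompact.exists_isMinOn B.nonempty hg.continuousOn
  refine ⟨fun B => g (m B), Metric.continuous_iff.2 fun B ε hε => ?_,
    fun B => ⟨fun y hy => m2 B hy, _, m1 B, rfl⟩⟩
  obtain ⟨δ, h1, h2⟩ := uc' hg (half_pos hε)
  refine ⟨δ, h1, fun A h => ?_⟩
  obtain ⟨y, y1, y2⟩ := near h (m1 A)
  obtain ⟨z, z1, z2⟩ := near (dist_comm A B ▸ h) (m1 B)
  have a1 := abs_le.1 (h2 _ _ y2.le)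
  have a2 := abs_le.1 (h2 _ _ z2.le)
  have a3 : g (m B) ≤ g y := m2 B y1
  have a4 : g (m A) ≤ g z := m2 A z1
  exact abs_lt.2 ⟨by linarith [a1.1], by linarith [a2.1]⟩

def LH (g : Y → ℝ) (lo hi : NonemptyCompacts Y → ℝ) : Prop :=
  Continuous g ∧ Continuous lo ∧ Continuous hi ∧ ∀ B : NonemptyCompacts Y,
    (∀ y ∈ (B : Set Y), lo B ≤ g y ∧ g y ≤ hi B) ∧ (∃ y ∈ (B : Set Y), g y = lo B) ∧
    ∃ y ∈ (B : Set Y), g y = hi B

lemma lh_ex [CompactSpace Y] {g : Y → ℝ} (hg : Continuous g) : ∃ lo hi, LH g lo hi := by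
  obtain ⟨lo, a1, a2⟩ := lo_ex hg
  obtain ⟨hi, b1, b2⟩ := lo_ex hg.neg
  refine ⟨lo, fun B => -hi B, hg, a1, b1.neg, fun B => ⟨fun y hy => ⟨(a2 B).1 y hy,
    le_neg.1 ((b2 B).1 y hy)⟩, (a2 B).2, ?_⟩⟩
  obtain ⟨y, y1, y2⟩ := (b2 B).2
  exact ⟨y, y1, neg_eq_iff_eq_neg.1 y2⟩

lemma LH.ivt {g : Y → ℝ} {lo hi : NonemptyCompacts Y → ℝ} (h : LH g lo hi) {B : NonemptyCompacts Y}
    (hB : IsPreconnected (B : Set Y)) {x : ℝ} (h1 : lo B ≤ x) (h2 : x ≤ hi B) :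
    ∃ y ∈ (B : Set Y), g y = x := by
  obtain ⟨-, ⟨a, a1, a2⟩, b, b1, b2⟩ := h.2.2.2 B
  exact hB.intermediate_value a1 b1 h.1.continuousOn ⟨a2.le.trans h1, h2.trans b2.ge⟩

lemma LH.le {g : Y → ℝ} {lo hi : NonemptyCompacts Y → ℝ} (h : LH g lo hi) (B : NonemptyCompacts Y) :
    lo B ≤ hi B := by
  obtain ⟨y, hy⟩ := B.nonempty
  exact ((h.2.2.2 B).1 y hy).1.trans ((h.2.2.2 B).1 y hy).2

def Lv {K : Type} (A : K → ℝ → NonemptyCompacts Y) (pt : K → ℝ → Y) (g : Y → ℝ)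
    (lo hi : NonemptyCompacts Y → ℝ) (N : ℕ) (q η : ℝ) : Prop :=
  LH g lo hi ∧ 0 < N ∧ N * q = 1 ∧ 0 < η ∧
    (∀ τ r, g (pt τ r) = (1 - θ (N * r)) * lo (A τ r) + θ (N * r) * hi (A τ r)) ∧
    ∀ τ r r', |r - r'| ≤ 2 * q → |lo (A τ r) - lo (A τ r')| ≤ η / 2 ∧
      |hi (A τ r) - hi (A τ r')| ≤ η / 2

lemma lv_ex [CompactSpace Y] {K : Type} {A : K → ℝ → NonemptyCompacts Y}
    (hY : ∀ ε : ℝ, ε > 0 → ∃ g : Y → ℝ, Continuous g ∧ ∀ r : ℝ, Metric.diam (g ⁻¹' {r}) < ε)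
    (hA : ∀ τ r, IsPreconnected (A τ r : Set Y))
    (eq : ∀ ε > 0, ∃ δ > 0, ∀ τ r r', |r - r'| ≤ δ → dist (A τ r) (A τ r') ≤ ε)
    {ρ c : ℝ} (hρ : 0 < ρ) (hc : 0 < c) : ∃ pt g lo hi N q η, Lv A pt g lo hi N q η ∧ 2 * q ≤ c ∧
      (∀ τ r, pt τ r ∈ (A τ r : Set Y)) ∧ ∀ y y', |g y - g y'| ≤ 5 * η → dist y y' ≤ ρ := by
  obtain ⟨g, g1, g2⟩ := hY ρ hρ
  obtain ⟨η, h1, h2⟩ := fib (Φ := id) continuous_id g1 (ε := ρ) fun w w' h =>
    (dist_le_diam_of_mem isBounded_of_compactSpace (s := g ⁻¹' {g w'}) h rfl).trans_lt (g2 _)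
  obtain ⟨lo, hi, h⟩ := lh_ex g1
  obtain ⟨ξ, a1, a2⟩ := uc' h.2.1 (show 0 < η / 5 / 2 by positivity)
  obtain ⟨ξ', b1, b2⟩ := uc' h.2.2.1 (show 0 < η / 5 / 2 by positivity)
  obtain ⟨δ, d1, d2⟩ := eq _ (lt_min a1 b1)
  obtain ⟨n, hn⟩ := exists_nat_one_div_lt (half_pos (lt_min d1 hc))
  have : ∀ τ r, ∃ y ∈ (A τ r : Set Y), g y = (1 - θ ((n + 1 : ℕ) * r)) * lo (A τ r) +
      θ ((n + 1 : ℕ) * r) * hi (A τ r) := fun τ r => by
    obtain ⟨t1, t2⟩ := θ_mem ((n + 1 : ℕ) * r)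
    exact h.ivt (hA τ r) (by nlinarith [h.le (A τ r)]) (by nlinarith [h.le (A τ r)])
  choose pt p1 p2 using this
  refine ⟨pt, g, lo, hi, n + 1, 1 / (n + 1), η / 5, ⟨h, n.succ_pos, by push_cast; field_simp,
    by positivity, p2, fun τ r r' e => ?_⟩, by linarith [min_le_right δ c], p1,
    fun y y' e => h2 y y' (by linarith)⟩
  have := d2 τ r r' (by linarith [min_le_left δ c])
  exact ⟨a2 _ _ (this.trans (min_le_left _ _)), b2 _ _ (this.trans (min_le_right _ _))⟩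

lemma Lv.cont {K : Type} {A : K → ℝ → NonemptyCompacts Y} {pt : K → ℝ → Y} {g : Y → ℝ}
    {lo hi : NonemptyCompacts Y → ℝ} {N : ℕ} {q η : ℝ} (h : Lv A pt g lo hi N q η) {τ : K}
    (hA : Continuous (A τ)) : Continuous fun r => g (pt τ r) := by
  simp only [h.2.2.2.2.1]
  have := h.1.2.1
  have := h.1.2.2.1
  have := θ_cont
  fun_prop

lemma Lv.hit {K : Type} {A : K → ℝ → NonemptyCompacts Y} {pt : K → ℝ → Y} {g : Y → ℝ}
    {lo hi : NonemptyCompacts Y → ℝ} {N : ℕ} {q η : ℝ} (h : Lv A pt g lo hi N q η) {τ : K} {r : ℝ}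
    {y : Y} (hy : y ∈ (A τ r : Set Y)) : ∃ t ∈ Icc r (r + 2 * q), |g (pt τ t) - g y| ≤ η / 2 := by
  obtain ⟨h0, h1, h2, h3, h4, h5⟩ := h
  obtain ⟨a, b, a0, b0, e1, e2⟩ := (Convex.mem_Icc (h0.le (A τ r))).1 ((h0.2.2.2 _).1 y hy)
  obtain ⟨x, ⟨x1, x2⟩, x3⟩ := θ_surj b0 (by linarith) (N * r)
  have N0 : (0 : ℝ) < N := by exact_mod_cast h1
  have q0 : 0 < q := by nlinarith
  have e3 : N * r * q = r := by linear_combination r * h2
  have t1 : r ≤ x * q := by nlinarith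
  have t2 : x * q ≤ r + 2 * q := by nlinarith
  obtain ⟨k1, k2⟩ := h5 τ (x * q) r (abs_le.2 ⟨by linarith, by linarith⟩)
  refine ⟨x * q, ⟨t1, t2⟩, ?_⟩
  rw [h4, show N * (x * q) = x by linear_combination x * h2, x3, ← e2, show 1 - b = a by linarith]
  rw [abs_le] at k1 k2 ⊢
  constructor <;> nlinarith [k1.1, k1.2, k2.1, k2.2]

lemma hair [CompactSpace Y] {Z K : Type} [MetricSpace Z] [CompactSpace Z] [Nonempty K]
    (hY : ∀ ε : ℝ, ε > 0 → ∃ g : Y → ℝ, Continuous g ∧ ∀ r : ℝ, Metric.diam (g ⁻¹' {r}) < ε)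
    {f : Y → Z} (hf : Continuous f) (A : K → ℝ → NonemptyCompacts Y) (β : K → ℝ → Z)
    (hA : ∀ τ r, IsPreconnected (A τ r : Set Y))
    (eq : ∀ ε > 0, ∃ δ > 0, ∀ τ r r', |r - r'| ≤ δ → dist (A τ r, β τ r) (A τ r', β τ r') ≤ ε)
    (y0 : Y) (h1 : ∀ τ, (A τ 1 : Set Y) = {y0}) (h0 : ∀ τ, ∃ y, (A τ 0 : Set Y) = {y} ∧ β τ 1 = f y)
    (tip : ∀ z, ∃ τ, β τ 0 = z) : WC Z := by
  have eq1 : ∀ ε > 0, ∃ δ > 0, ∀ τ r r', |r - r'| ≤ δ → dist (A τ r) (A τ r') ≤ ε := fun ε hε => by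
    obtain ⟨δ, a, b⟩ := eq ε hε
    exact ⟨δ, a, fun τ r r' e => (le_max_left _ _).trans (b τ r r' e)⟩
  have cA : ∀ τ, Continuous (A τ) := fun τ => Metric.continuous_iff.2 fun r ε hε => by
    obtain ⟨δ, a, b⟩ := eq1 _ (half_pos hε)
    exact ⟨δ, a, fun r' e => (b τ _ _ (le_of_lt e)).trans_lt (half_lt_self hε)⟩
  let Λ := {pt : K → ℝ → Y // ∀ τ r, pt τ r ∈ (A τ r : Set Y)}
  let d : Λ → K → ℝ → Z := fun l τ s => if s ≤ 1 / 2 then β τ (2 * s) else f (l.1 τ (2 * s - 1))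
  have d1 : ∀ l τ s, s ≤ 1 / 2 → d l τ s = β τ (2 * s) := fun l τ s h => if_pos h
  have d2 : ∀ l τ s, 1 / 2 ≤ s → d l τ s = f (l.1 τ (2 * s - 1)) := fun l τ s h => by
    rcases h.eq_or_lt with rfl | h
    · obtain ⟨y, a, b⟩ := h0 τ
      have := l.2 τ 0
      rw [a] at this
      rw [d1 l τ _ le_rfl]
      norm_num [b, show l.1 τ 0 = y from this]
    · exact if_neg h.not_ge
  let G : Λ → ℝ → Prop := fun l ε => ∃ g lo hi N q η, Lv A l.1 g lo hi N q η ∧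
    ∀ y y', |g y - g y'| ≤ 5 * η → dist (f y) (f y') ≤ ε / 2
  refine fan (fun ξ τ τ' => ∀ s ∈ Icc (0 : ℝ) 1, dist (A τ s, β τ s) (A τ' s, β τ' s) ≤ ξ)
    (fun ξ hξ τ s _ => by simpa using hξ.le) (fun ξ hξ => nets (fun τ s => (A τ s, β τ s)) eq hξ)
    d G (f y0) (fun l τ => ?_) ?_ (fun z => ?_) ?_ ?_
  · have := l.2 τ 1
    rw [h1] at this
    rw [d2 l τ _ (by norm_num)]
    norm_num [show l.1 τ 1 = y0 from this]
  · rintro l ε hε ⟨g, lo, hi, N, q, η, h, h'⟩ τ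
    obtain ⟨δ, a1, a2⟩ := eq _ (half_pos hε)
    obtain ⟨δ', b1, b2⟩ := uc (h.cont (cA τ)) 0 1 (show 0 < 5 * η by linarith [h.2.2.2.1])
    have p1 : ∀ s s', s ≤ s' → s' ≤ 1 / 2 → s' - s ≤ min δ δ' / 2 →
        dist (d l τ s) (d l τ s') ≤ ε / 2 := fun s s' c1 c2 c3 => by
      rw [d1 l τ s (c1.trans c2), d1 l τ s' c2]
      exact (le_max_right _ _).trans (a2 τ _ _ (abs_le.2
        ⟨by linarith [min_le_left δ δ'], by linarith⟩))
    have p2 : ∀ s s', 1 / 2 ≤ s → s ≤ s' → s' ≤ 1 → s' - s ≤ min δ δ' / 2 →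
        dist (d l τ s) (d l τ s') ≤ ε / 2 := fun s s' c1 c2 c3 c4 => by
      rw [d2 l τ s c1, d2 l τ s' (c1.trans c2)]
      exact h' _ _ (b2 _ ⟨by linarith, by linarith⟩ _ ⟨by linarith, by linarith⟩ (abs_le.2
        ⟨by linarith [min_le_right δ δ'], by linarith⟩))
    have p3 : ∀ s s', s ≤ s' → s' ≤ 1 → s' - s ≤ min δ δ' / 2 →
        dist (d l τ s) (d l τ s') ≤ ε := fun s s' c1 c2 c3 => by
      rcases le_total s' (1 / 2) with c | c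
      · linarith [p1 s s' c1 c c3]
      rcases le_total (1 / 2) s with c' | c'
      · linarith [p2 s s' c' c1 c2 c3]
      · linarith [p1 s _ c' le_rfl (by linarith), p2 _ s' le_rfl c c2 (by linarith),
          dist_triangle (d l τ s) (d l τ (1 / 2)) (d l τ s')]
    refine ⟨_, half_pos (lt_min a1 b1), fun s hs s' hs' e => ?_⟩
    rcases le_total s s' with c | c
    · exact p3 s s' c hs'.2 (by linarith [(abs_le.1 e).1])
    · exact dist_comm (d l τ s') _ ▸ p3 s' s c hs.2 (abs_le.1 e).2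
  · obtain ⟨τ, rfl⟩ := tip z
    refine ⟨τ, fun l ξ τ' h => ?_⟩
    rw [d1 _ _ _ (by norm_num), mul_zero, dist_comm]
    exact (le_max_right _ _).trans (h 0 ⟨le_rfl, zero_le_one⟩)
  · rintro l ε hε ⟨g, lo, hi, N, q, η, h, h'⟩
    have h2 := h
    obtain ⟨h3, N0, hq, hη, h4, h5⟩ := h2
    have N1 : (0 : ℝ) < N := by exact_mod_cast N0
    obtain ⟨ξ, a1, a2⟩ := uc' h3.2.1 (half_pos hη)
    obtain ⟨ξ', b1, b2⟩ := uc' h3.2.2.1 (half_pos hη)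
    obtain ⟨ρ, c1, c2⟩ := uc' h3.1 hη
    obtain ⟨ρ', c3, c4⟩ := uc' hf (half_pos (half_pos hε))
    obtain ⟨pt, g', lo', hi', N', q', η', k, k1, k2, k3⟩ := lv_ex hY hA eq1 (lt_min c1 c3)
      (show 0 < q by nlinarith)
    have k4 : ∀ y y', |g' y - g' y'| ≤ η' → |g y - g y'| ≤ η := fun y y' e =>
      c2 _ _ ((k3 _ _ (by linarith [k.2.2.2.1])).trans (min_le_left _ _))
    refine ⟨min (min ξ ξ') ε, lt_min (lt_min a1 b1) hε, min_le_right _ _, ⟨pt, k2⟩,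
      ⟨g', lo', hi', N', q', η', k, fun y y' e => c4 _ _ ((k3 _ _ e).trans (min_le_right _ _))⟩,
      fun τ τ' hτ => ?_⟩
    have cl : ∀ r ∈ Icc (0 : ℝ) 1, (-(η / 2) ≤ lo (A τ r) - lo (A τ' r) ∧
        lo (A τ r) - lo (A τ' r) ≤ η / 2) ∧ -(η / 2) ≤ hi (A τ r) - hi (A τ' r) ∧
        hi (A τ r) - hi (A τ' r) ≤ η / 2 := fun r hr =>
      have := ((le_max_left _ _).trans (hτ r hr)).trans (min_le_left _ _)
      ⟨abs_le.1 (a2 _ _ (this.trans (min_le_left _ _))),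
        abs_le.1 (b2 _ _ (this.trans (min_le_right _ _)))⟩
    have sg : ∀ r y, (A τ' r : Set Y) = {y} → g (pt τ' r) = lo (A τ' r) ∧ g (pt τ' r) = hi (A τ' r) :=
      fun r y e => by
        obtain ⟨-, ⟨a, a1, a2⟩, b, b1, b2⟩ := h3.2.2.2 (A τ' r)
        have := k2 τ' r
        rw [e] at a1 b1 this
        exact ⟨by rw [← a2, a1, this], by rw [← b2, b1, this]⟩
    obtain ⟨δ, d3, d4⟩ := uc (k.cont (cA τ')) 0 1 k.2.2.2.1
    obtain ⟨y1, y2, -⟩ := h0 τ'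
    have z := zig N0 hq (fun r => lo (A τ r)) (fun r => hi (A τ r)) (fun r => g (l.1 τ r))
      (fun r => g (pt τ' r)) hη d3 (h.cont (cA τ)) (fun r => (h3.2.2.2 _).1 _ (l.2 τ r))
      (fun j => by
        have e : N * (j * q) = j := by linear_combination j * hq
        simp only [h4, e]
        exact ⟨fun h => by simp [(θ_nat j).1 h], fun h => by simp [(θ_nat j).2 h]⟩)
      (fun s hs s' hs' e => k4 _ _ (d4 s hs s' hs' e))
      (fun r hr => by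
        obtain ⟨e1, e2⟩ := (h3.2.2.2 _).1 _ (k2 τ' r)
        obtain ⟨⟨-, e3⟩, e4, -⟩ := cl r hr
        exact ⟨by linarith, by linarith⟩)
      (h5 τ)
      (fun r hr => by
        obtain ⟨-, ⟨a, a1, a2⟩, b, b1, b2⟩ := h3.2.2.2 (A τ' r)
        obtain ⟨t, t1, t2⟩ := k.hit a1
        obtain ⟨s, s1, s2⟩ := k.hit b1
        obtain ⟨⟨e3, -⟩, -, e4⟩ := cl r hr
        exact ⟨⟨t, ⟨t1.1, by linarith [t1.2]⟩, by
          linarith [(abs_le.1 (k4 _ _ (t2.trans (half_le_self k.2.2.2.1.le)))).2]⟩,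
          s, ⟨s1.1, by linarith [s1.2]⟩, by
          linarith [(abs_le.1 (k4 _ _ (s2.trans (half_le_self k.2.2.2.1.le)))).1]⟩)
      (by linarith [(sg 0 _ y2).1, (cl 0 ⟨le_rfl, zero_le_one⟩).1.1])
      (by linarith [(sg 1 _ (h1 τ')).1, (cl 1 ⟨zero_le_one, le_rfl⟩).1.1])
      (by linarith [(sg 1 _ (h1 τ')).2, (cl 1 ⟨zero_le_one, le_rfl⟩).2.2])
    refine JoinedIn.trans (y := (1 / 2, 1 / 2)) (JoinedIn.ofLine (f := fun s => (s / 2, s / 2))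
      (by fun_prop) (by simp) rfl ?_) ?_
    · rintro _ ⟨s, hs, rfl⟩
      refine ⟨⟨by linarith [hs.1], by linarith [hs.2]⟩, ⟨by linarith [hs.1], by linarith [hs.2]⟩, ?_⟩
      dsimp only
      rw [d1 _ _ _ (by linarith [hs.2]), d1 _ _ _ (by linarith [hs.2]), mul_div_cancel₀ _ two_ne_zero]
      exact ((le_max_right _ _).trans (hτ s hs)).trans (min_le_right _ _)
    · have := (z.map (f := fun p : ℝ × ℝ => ((p.1 + 1) / 2, (p.2 + 1) / 2)) (by fun_prop))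
      norm_num only [zero_add, add_self_div_two] at this
      refine this.mono ?_
      rintro _ ⟨p, ⟨p1, p2, p3⟩, rfl⟩
      refine ⟨⟨by linarith [p1.1], by linarith [p1.2]⟩, ⟨by linarith [p2.1], by linarith [p2.2]⟩, ?_⟩
      dsimp only
      rw [d2 _ _ _ (by linarith [p1.1]), d2 _ _ _ (by linarith [p2.1]),
        show 2 * ((p.1 + 1) / 2) - 1 = p.1 by ring, show 2 * ((p.2 + 1) / 2) - 1 = p.2 by ring]
      exact (h' _ _ p3).trans (half_le_self hε.le)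
  · obtain ⟨ρ', c3, c4⟩ := uc' hf (half_pos one_pos)
    obtain ⟨pt, g', lo', hi', N', q', η', k, -, k2, k3⟩ := lv_ex hY hA eq1 c3 one_pos
    exact ⟨⟨pt, k2⟩, 1, one_pos, g', lo', hi', N', q', η', k, fun y y' e => c4 _ _ (k3 _ _ e)⟩

end

end Pool.Agent.H.MP_4bbdcb_gt
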