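import Pool.Agent.H.MP_4bbdcb_gt.D

set_option autoImplicit false

open Set Filter Topology Function Metric TopologicalSpace

namespace Pool.Agent.H.MP_4bbdcb_gt

section
variable {X : Type} [TopologicalSpace X]

lemma cc {W : Set X} (hW : IsClosed W) (x : X) : IsClosed (connectedComponentIn W x) := by
  by_cases hx : x ∈ W
  · rw [connectedComponentIn_eq_image hx]
    exact hW.isClosedMap_subtype_val _ isClosed_connectedComponent
  · rw [connectedComponentIn_eq_empty hx]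
    exact isClosed_empty

lemma bb [CompactSpace X] [T2Space X] {C W N : Set X} {x : X} (h1 : IsClosed C)
    (h2 : IsPreconnected C) (hW : IsClosed W)
    (hN : IsOpen N) (h3 : N ⊆ W) (hx : x ∈ C ∩ W) (h4 : ¬ C ⊆ N) :
    ¬ connectedComponentIn (C ∩ W) x ⊆ N := fun h => by
  have hZ := h1.inter hW
  have := isCompact_iff_compactSpace.1 hZ.isCompact
  rw [connectedComponentIn_eq_image hx, image_subset_iff,
    connectedComponent_eq_iInter_isClopen] at h
  have : Nonempty {s : Set (C ∩ W : Set X) // IsClopen s ∧ ⟨x, hx⟩ ∈ s} :=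
    ⟨⟨univ, isClopen_univ, trivial⟩⟩
  obtain ⟨⟨D, d1, d2⟩, d3⟩ := exists_subset_nhds_of_compactSpace (U := Subtype.val ⁻¹' N)
    (V := fun s : {s : Set (C ∩ W : Set X) // IsClopen s ∧ ⟨x, hx⟩ ∈ s} => s.1)
    (fun s t => ⟨⟨s.1 ∩ t.1, s.2.1.inter t.2.1, s.2.2, t.2.2⟩,
      inter_subset_left, inter_subset_right⟩) (fun s => s.2.1.1)
    fun z hz => (hN.preimage continuous_subtype_val).mem_nhds (h hz)
  obtain ⟨u, hu, rfl⟩ := isOpen_induced_iff.1 d1.2
  obtain ⟨r, hr, hr'⟩ := not_subset.1 h4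
  obtain ⟨_, -, ⟨z, hz, rfl⟩, hz'⟩ := isPreconnected_closed_iff.1 h2 _ _
    (hZ.isClosedMap_subtype_val _ d1.1) (hu.inter hN).isClosed_compl
    (fun z hz => (em _).imp_left fun h => ⟨⟨z, hz, h3 h.2⟩, h.1, rfl⟩)
    ⟨x, hx.1, _, d2, rfl⟩ ⟨r, hr, fun h => hr' h.2⟩
  exact hz' ⟨hz, d3 hz⟩

lemma mono {Y : Type} [TopologicalSpace Y] [T2Space Y] {D : Set X} (hD : IsCompact D) {f : X → Y}
    (hf : Continuous f) {J : Set Y} (hJ : IsPreconnected J) (h0 : MapsTo f D J)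
    (h1 : ∀ t ∈ J, IsConnected (D ∩ f ⁻¹' {t})) : IsPreconnected D := by
  refine isPreconnected_closed_iff.2 fun u v hu hv h ⟨a, ha⟩ ⟨b, hb⟩ => ?_
  obtain ⟨t, ht, ⟨x, x1, x2⟩, y, y1, y2⟩ := isPreconnected_closed_iff.1 hJ _ _
    ((hD.inter_right hu).image hf).isClosed ((hD.inter_right hv).image hf).isClosed
    (fun t ht => by
      obtain ⟨x, x1, x2⟩ := (h1 t ht).1
      exact (h x1).imp (fun e => ⟨x, ⟨x1, e⟩, x2⟩) fun e => ⟨x, ⟨x1, e⟩, x2⟩)
    ⟨_, h0 ha.1, a, ha, rfl⟩ ⟨_, h0 hb.1, b, hb, rfl⟩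
  obtain ⟨z, z1, z2⟩ := isPreconnected_closed_iff.1 (h1 t ht).2 u v hu hv
    (inter_subset_left.trans h) ⟨x, ⟨x1.1, x2⟩, x1.2⟩ ⟨y, ⟨y1.1, y2⟩, y1.2⟩
  exact ⟨z, z1.1, z2⟩

end

variable {E : Type} [MetricSpace E] [CompactSpace E]

omit [CompactSpace E] in
lemma closed_le : IsClosed {p : NonemptyCompacts E × NonemptyCompacts E | p.1 ≤ p.2} := by
  simp only [← sup_eq_right]
  exact isClosed_eq (continuous_fst.sup continuous_snd) continuous_snd

omit [CompactSpace E] in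
lemma closed_conn : IsClosed {K : NonemptyCompacts E | IsConnected (K : Set E)} := by
  refine isOpen_compl_iff.1 (isOpen_iff_forall_mem_open.2 fun K hK => ?_)
  have h : ¬ IsPreconnected (K : Set E) := fun h => hK ⟨K.nonempty, h⟩
  rw [isPreconnected_iff_subset_of_fully_disjoint_closed K.isCompact.isClosed] at h
  push Not at h
  obtain ⟨u, v, hu, hv, h1, h2, h3, h4⟩ := h
  obtain ⟨U, V, hU, hV, h5, h6, h7⟩ := normal_separation hu hv h2
  obtain ⟨a, a1, a2⟩ := not_subset.1 h3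
  obtain ⟨b, b1, b2⟩ := not_subset.1 h4
  refine ⟨{L | (L : Set E) ⊆ U ∪ V} ∩ ({L | ((L : Set E) ∩ U).Nonempty} ∩
    {L | ((L : Set E) ∩ V).Nonempty}), fun L ⟨l1, l2, l3⟩ hL => ?_,
    (NonemptyCompacts.isOpen_subsets_of_isOpen (hU.union hV)).inter
      ((NonemptyCompacts.isOpen_inter_nonempty_of_isOpen hU).inter
      (NonemptyCompacts.isOpen_inter_nonempty_of_isOpen hV)),
    h1.trans (union_subset_union h5 h6), ⟨b, b1, h5 ((h1 b1).resolve_right b2)⟩,
    a, a1, h6 ((h1 a1).resolve_left a2)⟩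
  obtain ⟨x, -, x1, x2⟩ := hL.2 U V hU hV l1 l2 l3
  exact Set.disjoint_left.1 h7 x1 x2

lemma nu_ex : ∃ ν : NonemptyCompacts E → ℝ, Continuous ν ∧ StrictMono ν := by
  rcases isEmpty_or_nonempty E with h | h
  · exact ⟨0, continuous_const, fun A => absurd A.nonempty (by simp [Set.eq_empty_of_isEmpty (A : Set E)])⟩
  let u := denseSeq E
  have bd : ∀ k (A : NonemptyCompacts E), ‖(1 / 2 : ℝ) ^ k * infDist (u k) A‖ ≤
      (1 / 2) ^ k * diam (univ : Set E) := fun k A => by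
    obtain ⟨y, hy⟩ := A.nonempty
    rw [Real.norm_of_nonneg (mul_nonneg (by positivity) infDist_nonneg)]
    exact mul_le_mul_of_nonneg_left ((infDist_le_dist_of_mem hy).trans
      (dist_le_diam_of_mem isBounded_of_compactSpace trivial trivial)) (by positivity)
  have sm := summable_geometric_two.mul_right (diam (univ : Set E))
  refine ⟨fun A => -∑' k, (1 / 2 : ℝ) ^ k * infDist (u k) A, (continuous_tsum (fun k =>
    continuous_const.mul (lipschitz_infDist_set (u k)).continuous) sm bd).neg, fun A B h => ?_⟩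
  obtain ⟨b, b1, b2⟩ := SetLike.exists_of_lt h
  have r0 : 0 < infDist b A := (A.isCompact.isClosed.notMem_iff_infDist_pos A.nonempty).1 b2
  obtain ⟨k, hk⟩ := (denseRange_denseSeq E).exists_dist_lt b (half_pos r0)
  refine neg_lt_neg (Summable.tsum_lt_tsum (i := k) (fun k => mul_le_mul_of_nonneg_left
    (infDist_le_infDist_of_subset h.le A.nonempty) (by positivity))
    (mul_lt_mul_of_pos_left ?_ (by positivity)) (sm.of_norm_bounded fun k => bd k B)
    (sm.of_norm_bounded fun k => bd k A))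
  linarith [infDist_le_infDist_add_dist (x := b) (y := u k) (s := A),
    infDist_le_dist_of_mem (x := u k) (s := B) b1, dist_comm b (u k)]

lemma bump {C D : NonemptyCompacts E} (hC : IsConnected (C : Set E)) (hD : IsConnected (D : Set E))
    (h : C < D) : ∃ F : NonemptyCompacts E, IsConnected (F : Set E) ∧ C < F ∧ F < D := by
  obtain ⟨d, d1, d2⟩ := SetLike.exists_of_lt h
  obtain ⟨x, hx⟩ := C.nonempty
  obtain ⟨N, n1, n2, n3⟩ := C.isCompact.exists_isOpen_closure_subset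
    ((isOpen_compl_singleton (x := d)).mem_nhdsSet.2 fun z hz e => d2 (e ▸ hz))
  have s : (C : Set E) ⊆ D ∩ closure N := subset_inter h.le (n2.trans subset_closure)
  have s' := connectedComponentIn_subset (D ∩ closure N) x
  refine ⟨⟨⟨connectedComponentIn (D ∩ closure N) x,
    (cc (D.isCompact.isClosed.inter isClosed_closure) x).isCompact⟩,
    ⟨x, mem_connectedComponentIn (s hx)⟩⟩, isConnected_connectedComponentIn_iff.2 (s hx),
    lt_of_le_not_ge (hC.2.subset_connectedComponentIn hx s) fun e => ?_,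
    lt_of_le_not_ge (fun z hz => (s' hz).1) fun e => n3 (s' (e d1)).2 rfl⟩
  exact bb D.isCompact.isClosed hD.2 isClosed_closure n1 subset_closure (s hx)
    (fun e => n3 (subset_closure (e d1)) rfl) (Subset.trans e n2)

lemma chain {ν : NonemptyCompacts E → ℝ} (h1 : Continuous ν) (h2 : StrictMono ν)
    {A B : NonemptyCompacts E} (hA : IsConnected (A : Set E)) (hB : IsConnected (B : Set E))
    (h : A ≤ B) : ∃ M : Set (NonemptyCompacts E), A ∈ M ∧ B ∈ M ∧
      (∀ C ∈ M, IsConnected (C : Set E) ∧ A ≤ C ∧ C ≤ B) ∧ (∀ C ∈ M, ∀ D ∈ M, ν C ≤ ν D → C ≤ D) ∧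
      ∀ v ∈ Icc (ν A) (ν B), ∃ C ∈ M, ν C = v := by
  let T := {C : NonemptyCompacts E | IsConnected (C : Set E) ∧ A ≤ C ∧ C ≤ B}
  have c1 : ∀ D : NonemptyCompacts E, IsClosed {C | C ≤ D} := fun D =>
    closed_le.preimage (continuous_id.prodMk continuous_const)
  have c2 : ∀ D : NonemptyCompacts E, IsClosed {C | D ≤ C} := fun D =>
    closed_le.preimage (continuous_const.prodMk continuous_id)
  obtain ⟨M, ⟨m1, m2⟩, m3⟩ := zorn_subset {M | M ⊆ T ∧ IsChain (· ≤ ·) M} fun c hc hc' =>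
    ⟨⋃₀ c, ⟨sUnion_subset fun M hM => (hc hM).1, by
      rintro C ⟨M, a1, a2⟩ D ⟨N, b1, b2⟩ e
      rcases hc'.total a1 b1 with h | h
      exacts [(hc b1).2 (h a2) b2 e, (hc a1).2 a2 (h b2) e]⟩, fun s hs => subset_sUnion_of_mem hs⟩
  have mx : ∀ C ∈ T, (∀ D ∈ M, C ≤ D ∨ D ≤ C) → C ∈ M := fun C hC h =>
    m3 ⟨insert_subset hC m1, m2.insert fun D hD _ => h D hD⟩ (subset_insert _ _) (mem_insert _ _)
  have cM : IsCompact M := by
    have : M = T ∩ ⋂ D ∈ M, {C | C ≤ D} ∪ {C | D ≤ C} := Subset.antisymm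
      (fun C hC => ⟨m1 hC, mem_iInter₂.2 fun D hD => m2.total hC hD⟩)
      fun C hC => mx C hC.1 (mem_iInter₂.1 hC.2)
    rw [this]
    exact ((closed_conn.inter ((c2 A).inter (c1 B))).inter
      (isClosed_biInter fun D _ => (c1 D).union (c2 D))).isCompact
  have cmp : ∀ C ∈ M, ∀ D ∈ M, ν C ≤ ν D → C ≤ D := fun C hC D hD e =>
    (m2.total hC hD).elim id fun h => h.eq_or_lt.elim (fun h => h.ge) fun h => absurd (h2 h) e.not_gt
  have a1 := mx A ⟨hA, le_rfl, h⟩ fun D hD => Or.inl (m1 hD).2.1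
  have b1 := mx B ⟨hB, h, le_rfl⟩ fun D hD => Or.inr (m1 hD).2.2
  refine ⟨M, a1, b1, m1, cmp, fun v hv => ?_⟩
  obtain ⟨C, ⟨p1, p2⟩, p3⟩ := (cM.inter_right (isClosed_le h1 continuous_const)).exists_isMaxOn
    ⟨A, a1, hv.1⟩ h1.continuousOn
  obtain ⟨D, ⟨q1, q2⟩, q3⟩ := (cM.inter_right (isClosed_le continuous_const h1)).exists_isMinOn
    ⟨B, b1, hv.2⟩ h1.continuousOn
  by_contra! h0
  have e : ν C < ν D := (lt_of_le_of_ne p2 (h0 C p1)).trans_le q2
  obtain ⟨F, f1, f2, f3⟩ := bump (m1 p1).1 (m1 q1).1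
    (lt_of_le_of_ne (cmp C p1 D q1 e.le) fun h => e.ne (congrArg ν h))
  have f4 := mx F ⟨f1, (m1 p1).2.1.trans f2.le, f3.le.trans (m1 q1).2.2⟩ fun G hG =>
    (le_total v (ν G)).imp (fun h => f3.le.trans (cmp D q1 G hG (q3 ⟨hG, h⟩)))
      fun h => (cmp G hG C p1 (p3 ⟨hG, h⟩)).trans f2.le
  rcases le_total v (ν F) with h | h
  · exact (h2 f3).not_ge (q3 ⟨f4, h⟩)
  · exact (h2 f2).not_ge (p3 ⟨f4, h⟩)

lemma arcs (E : Type) [MetricSpace E] [CompactSpace E] :
    ∃ a : NonemptyCompacts E → NonemptyCompacts E → ℝ → NonemptyCompacts E,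
    (∀ A B : NonemptyCompacts E, IsConnected (A : Set E) → IsConnected (B : Set E) → A ≤ B →
      a A B 0 = A ∧ a A B 1 = B ∧ Monotone (a A B) ∧
      ∀ r, IsConnected (a A B r : Set E) ∧ A ≤ a A B r ∧ a A B r ≤ B) ∧
    ∀ ε > 0, ∃ δ > 0, ∀ A B r r', |r - r'| ≤ δ → dist (a A B r) (a A B r') ≤ ε := by
  obtain ⟨ν, h1, h2⟩ := nu_ex (E := E)
  obtain ⟨c, hc⟩ := (isCompact_range h1).isBounded.exists_pos_norm_le
  have : ∀ A B : NonemptyCompacts E, ∃ a : ℝ → NonemptyCompacts E,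
      (IsConnected (A : Set E) → IsConnected (B : Set E) → A ≤ B → a 0 = A ∧ a 1 = B ∧
      ∀ r, IsConnected (a r : Set E) ∧ A ≤ a r ∧ a r ≤ B) ∧ Monotone a ∧
      ∀ r r', r ≤ r' → ν (a r') - ν (a r) ≤ (r' - r) * (2 * c) := fun A B => by
    by_cases h : IsConnected (A : Set E) ∧ IsConnected (B : Set E) ∧ A ≤ B
    · obtain ⟨M, m1, m2, m3, m4, m5⟩ := chain h1 h2 h.1 h.2.1 h.2.2
      have e0 := sub_nonneg.2 (h2.monotone h.2.2)
      have e1 : ν B - ν A ≤ 2 * c := by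
        linarith [(abs_le.1 (hc.2 _ (mem_range_self A))).1, (abs_le.1 (hc.2 _ (mem_range_self B))).2]
      choose a a1 a2 using fun r : ℝ => m5 (ν A + max 0 (min r 1) * (ν B - ν A))
        ⟨by nlinarith [le_max_left 0 (min r 1)], by
          nlinarith [max_le zero_le_one (min_le_right r 1)]⟩
      have e2 : ∀ r r' : ℝ, r ≤ r' → 0 ≤ max 0 (min r' 1) - max 0 (min r 1) ∧
          max 0 (min r' 1) - max 0 (min r 1) ≤ r' - r := fun r r' e => by
        simp only [max_def, min_def]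
        split_ifs <;> constructor <;> linarith
      refine ⟨a, fun _ _ _ => ⟨le_antisymm (m4 _ (a1 0) _ m1 (by simp [a2])) (m3 _ (a1 0)).2.1,
        le_antisymm (m3 _ (a1 1)).2.2 (m4 _ m2 _ (a1 1) (by simp [a2])), fun r => m3 _ (a1 r)⟩,
        fun r r' e => m4 _ (a1 r) _ (a1 r') ?_, fun r r' e => ?_⟩
      · rw [a2, a2]
        nlinarith [(e2 r r' e).1]
      · rw [a2, a2]
        nlinarith [(e2 r r' e).1, (e2 r r' e).2]
    · exact ⟨fun _ => A, fun a b c => absurd ⟨a, b, c⟩ h, monotone_const,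
        fun r r' e => by nlinarith [hc.1]⟩
  choose a a1 a2 a3 using this
  refine ⟨a, fun A B x y z => ⟨(a1 A B x y z).1, (a1 A B x y z).2.1, a2 A B, (a1 A B x y z).2.2⟩,
    fun ε hε => ?_⟩
  obtain ⟨δ, d1, d2⟩ := (closed_le.inter (isClosed_le (f := fun _ => ε) continuous_const
    continuous_dist)).isCompact.exists_forall_le' (a := 0) (f := fun p => ν p.2 - ν p.1)
    (by fun_prop) fun p hp => sub_pos.2 (h2 (lt_of_le_of_ne hp.1 fun e => by
      have : ε ≤ dist p.1 p.2 := hp.2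
      rw [e, dist_self] at this
      linarith))
  have c0 := hc.1
  have key : ∀ A B r r', r ≤ r' → r' - r ≤ δ / (4 * c) → dist (a A B r) (a A B r') ≤ ε :=
    fun A B r r' e e' => by
      by_contra! h
      have := (d2 (_, _) ⟨a2 A B e, h.le⟩).trans (a3 A B r r' e)
      rw [le_div_iff₀ (by positivity)] at e'
      nlinarith
  refine ⟨δ / (4 * c), by positivity, fun A B r r' e => ?_⟩
  rcases le_total r r' with h | h
  · exact key A B r r' h (by linarith [(abs_le.1 e).1])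
  · exact dist_comm (a A B r') _ ▸ key A B r' r h (abs_le.1 e).2

end Pool.Agent.H.MP_4bbdcb_gt
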