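import Pool.Agent.H.MP_4bbdcb_gt.E

set_option autoImplicit false

open Set Filter Topology Function Metric TopologicalSpace

namespace Pool.Agent.H.MP_4bbdcb_gt

/-- levels of a monotone size function are connected -/
lemma level {P : Type} [MetricSpace P] [CompactSpace P] [ConnectedSpace P]
    {s : NonemptyCompacts P → ℝ} {t : ℝ}
    (h1 : ContinuousOn s {Q | IsConnected (Q : Set P)})
    (h2 : ∀ A B : NonemptyCompacts P, IsConnected (A : Set P) → IsConnected (B : Set P) → A ≤ B →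
      s A ≤ s B) (h3 : ∀ p, s {p} ≤ t) (h4 : t ≤ s ⊤) :
    IsConnected {Q : NonemptyCompacts P | IsConnected (Q : Set P) ∧ s Q = t} := by
  obtain ⟨a, a1, a2⟩ := arcs P
  have ca : ∀ A B, Continuous (a A B) := fun A B => Metric.continuous_iff.2 fun r ε hε => by
    obtain ⟨δ, d1, d2⟩ := a2 _ (half_pos hε)
    exact ⟨δ, d1, fun r' e => (d2 A B _ _ (le_of_lt e)).trans_lt (half_lt_self hε)⟩
  set W := {Q : NonemptyCompacts P | IsConnected (Q : Set P) ∧ s Q = t}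
  have cW : IsClosed W := h1.preimage_isClosed_of_isClosed closed_conn isClosed_singleton
  let M := {z : P × NonemptyCompacts P | ({z.1} : NonemptyCompacts P) ≤ z.2 ∧ z.2 ∈ W}
  have cM : IsClosed M := (closed_le.preimage ((NonemptyCompacts.continuous_singleton.comp
    continuous_fst).prodMk continuous_snd)).inter (cW.preimage continuous_snd)
  have c1 : ∀ p : P, IsConnected (({p} : NonemptyCompacts P) : Set P) := fun p =>
    isConnected_singleton
  have ne : ∀ p, (M ∩ Prod.fst ⁻¹' {p}).Nonempty := fun p => by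
    obtain ⟨b0, b1, -, b2⟩ := a1 {p} ⊤ (c1 p) isConnected_univ le_top
    obtain ⟨r, hr⟩ := intermediate_value_univ 0 1 (h1.comp_continuous (ca {p} ⊤) fun r => (b2 r).1)
      (show t ∈ _ from ⟨by simpa [b0] using h3 p, by simpa [b1] using h4⟩)
    exact ⟨(p, a {p} ⊤ r), ⟨(b2 r).2.1, (b2 r).1, hr⟩, rfl⟩
  have pM := mono cM.isCompact continuous_fst isPreconnected_univ (mapsTo_univ _ _) fun p _ =>
    ⟨ne p, isPreconnected_of_forall_pair ?_⟩
  · have : W = Prod.snd '' M := Subset.antisymm (fun Q hQ => by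
      obtain ⟨p, hp⟩ := Q.nonempty
      exact ⟨(p, Q), ⟨singleton_subset_iff.2 hp, hQ⟩, rfl⟩) (by rintro _ ⟨z, hz, rfl⟩; exact hz.2)
    obtain ⟨z, hz, -⟩ := ne (Classical.arbitrary P)
    exact ⟨⟨z.2, hz.2⟩, this ▸ pM.image _ continuous_snd.continuousOn⟩
  rintro ⟨p, A⟩ ⟨⟨x1, x2, x3⟩, rfl⟩ ⟨p', B⟩ ⟨⟨y1, y2, y3⟩, rfl : p' = p⟩
  dsimp only at x1 x2 x3 y1 y2 y3
  obtain ⟨b0, b1, b2, b3⟩ := a1 _ A (c1 p') x2 x1
  obtain ⟨d0, d1, d2, d3⟩ := a1 _ B (c1 p') y2 y1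
  have := ca {p'} A
  have := ca {p'} B
  generalize a {p'} A = α at *
  generalize a {p'} B = β at *
  have b4 : ∀ r ≤ 0, α r = {p'} := fun r h => le_antisymm (b0 ▸ b2 h) (b3 r).2.1
  have b5 : ∀ r ≥ 1, α r = A := fun r h => le_antisymm (b3 r).2.2 (b1 ▸ b2 h)
  have d4 : ∀ r ≤ 0, β r = {p'} := fun r h => le_antisymm (d0 ▸ d2 h) (d3 r).2.1
  have d5 : ∀ r ≥ 1, β r = B := fun r h => le_antisymm (d3 r).2.2 (d1 ▸ d2 h)
  let G : ℝ × ℝ → NonemptyCompacts P := fun z => α (z.1 + z.2) ⊔ β (z.2 - z.1)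
  have g0 : Continuous G := Continuous.sup (by fun_prop) (by fun_prop)
  have g1 : ∀ z, IsConnected (G z : Set P) := fun z =>
    IsConnected.union ⟨p', (b3 _).2.1 rfl, (d3 _).2.1 rfl⟩ (b3 _).1 (d3 _).1
  have g2 : Continuous (s ∘ G) := h1.comp_continuous g0 g1
  have g3 : ∀ c, Monotone fun x => s (G (c, x)) := fun c x y h => h2 _ _ (g1 _) (g1 _)
    (sup_le_sup (b2 (by linarith)) (d2 (by linarith)))
  let S := (Icc (-1 : ℝ) 1 ×ˢ Icc (-1 : ℝ) 2) ∩ (s ∘ G) ⁻¹' {t}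
  have pS : IsPreconnected S := by
    refine mono ((isCompact_Icc.prod isCompact_Icc).inter_right (isClosed_singleton.preimage g2))
      continuous_fst (isPreconnected_Icc (a := -1) (b := 1)) (fun z hz => hz.1.1) fun c hc => ?_
    have : S ∩ Prod.fst ⁻¹' {c} = Prod.mk c '' (Icc (-1) 2 ∩ (fun x => s (G (c, x))) ⁻¹' {t}) := by
      ext ⟨c', x⟩
      constructor
      · rintro ⟨⟨z1, z2⟩, rfl⟩
        exact ⟨x, ⟨z1.2, z2⟩, rfl⟩
      · rintro ⟨x', ⟨z1, z2⟩, e⟩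
        obtain ⟨rfl, rfl⟩ := Prod.mk.inj e
        exact ⟨⟨⟨hc, z1⟩, z2⟩, rfl⟩
    rw [this]
    refine IsConnected.image ⟨?_, OrdConnected.isPreconnected ⟨fun x hx y hy z hz =>
      mem_inter (mem_Icc.2 ⟨hx.1.1.trans hz.1, hz.2.trans hy.1.2⟩) ( le_antisymm ((g3 c hz.2).trans (Eq.le hy.2))
        ((Eq.ge hx.2).trans (g3 c hz.1)))⟩⟩ _ (by fun_prop)
    obtain ⟨x, e1, e2⟩ := intermediate_value_Icc (a := -1) (b := 2) (by norm_num)
      (g2.comp (Continuous.prodMk_right c)).continuousOn (show t ∈ _ from ⟨by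
        simpa [G, b4 (c + -1) (by linarith [hc.2]), d4 (-1 - c) (by linarith [hc.1])] using h3 p', by
        rw [← x3]
        refine h2 _ _ x2 (g1 _) (le_sup_of_le_left (b5 (c + 2) (by linarith [hc.1])).ge)⟩)
    exact ⟨x, e1, e2⟩
  have e1 : G (1, 0) = A := by simp [G, b1, d4, x1]
  have e2 : G (-1, 0) = B := by simp [G, d1, b4, y1]
  refine ⟨(fun z => (p', G z)) '' S, ?_, ⟨(1, 0), ⟨by norm_num, by simpa [e1] using x3⟩, by simp only [e1]⟩,
    ⟨(-1, 0), ⟨by norm_num, by simpa [e2] using y3⟩, by simp only [e2]⟩, pS.image _ (by fun_prop)⟩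
  rintro _ ⟨z, hz, rfl⟩
  exact ⟨⟨le_sup_of_le_left (b3 _).2.1, g1 z, hz.2⟩, rfl⟩

lemma top {P X : Type} [MetricSpace P] [CompactSpace P] [ConnectedSpace P] [MetricSpace X]
    [CompactSpace X]
    (hP : ∀ ε : ℝ, ε > 0 → ∃ g : P → ℝ, Continuous g ∧ ∀ r : ℝ, Metric.diam (g ⁻¹' {r}) < ε)
    {μ : NonemptyCompacts X → ℝ} {t : ℝ} (h1 : ContinuousOn μ {Q | IsConnected (Q : Set X)})
    (h2 : ∀ A B : NonemptyCompacts X, IsConnected (A : Set X) → IsConnected (B : Set X) →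
      (A : Set X) ⊂ (B : Set X) → μ A < μ B)
    {F : P → NonemptyCompacts X} (f1 : Continuous F) (f2 : ∀ p, IsConnected (F p : Set X))
    (f3 : ∀ p, μ (F p) ≤ t) (f4 : ∀ K : NonemptyCompacts X, IsConnected (K : Set X) → μ K = t →
      ∃ p, F p = K) (h3 : ∃ K : NonemptyCompacts X, IsConnected (K : Set X) ∧ μ K = t) :
    WC {K : NonemptyCompacts X | IsConnected (K : Set X) ∧ μ K = t} := by
  have mo : ∀ A B : NonemptyCompacts X, IsConnected (A : Set X) → IsConnected (B : Set X) → A ≤ B →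
      μ A ≤ μ B := fun A B a b h => h.eq_or_lt.elim (fun h => (congrArg μ h).le) fun h =>
    (h2 A B a b h).le
  obtain ⟨U, hU⟩ : ∃ U : NonemptyCompacts P → NonemptyCompacts X,
      ∀ Q, (U Q : Set X) = ⋃ p ∈ (Q : Set P), (F p : Set X) :=
    ⟨fun Q => ⟨⟨⋃ p ∈ (Q : Set P), (F p : Set X), by
      simpa only [biUnion_image] using
        NonemptyCompacts.isCompact_biUnion_coe_of_isCompact (Q.isCompact.image f1)⟩, by
      obtain ⟨p, hp⟩ := Q.nonempty
      obtain ⟨x, hx⟩ := (F p).nonempty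
      exact ⟨x, mem_biUnion hp hx⟩⟩, fun _ => rfl⟩
  have un : ∀ η > 0, ∃ ρ > 0, ∀ Q Q' : NonemptyCompacts P,
      (∀ p ∈ (Q : Set P), ∃ p' ∈ (Q' : Set P), dist p p' ≤ ρ) →
      ∀ x ∈ (U Q : Set X), ∃ y ∈ (U Q' : Set X), dist x y ≤ η := fun η hη => by
    obtain ⟨ρ, r1, r2⟩ := uc' f1 (half_pos hη)
    refine ⟨ρ, r1, fun Q Q' h x hx => ?_⟩
    rw [hU] at hx ⊢
    obtain ⟨p, p1, p2⟩ := mem_iUnion₂.1 hx
    obtain ⟨p', p3, p4⟩ := h p p1
    obtain ⟨y, y1, y2⟩ := near ((r2 _ _ p4).trans_lt (half_lt_self hη)) p2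
    exact ⟨y, mem_biUnion p3 y1, y2.le⟩
  have cU : Continuous U := Metric.continuous_iff.2 fun Q ε hε => by
    obtain ⟨ρ, r1, r2⟩ := un _ (half_pos hε)
    refine ⟨ρ, r1, fun Q' h => (hausdorffDist_le_of_mem_dist (half_pos hε).le
      (r2 _ _ fun p hp => (near h hp).imp fun _ h => ⟨h.1, h.2.le⟩) fun x hx => ?_).trans_lt
      (half_lt_self hε)⟩
    exact r2 _ _ (fun p hp => (near (dist_comm Q' Q ▸ h) hp).imp fun _ h => ⟨h.1, h.2.le⟩) x hx
  have nU : ∀ Q : NonemptyCompacts P, IsConnected (Q : Set P) → IsConnected (U Q : Set X) :=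
    fun Q hQ => ⟨(U Q).nonempty, hU Q ▸ vietoris.isPreconnected_biUnion hQ.2
      (@Continuous.continuousOn _ _ _ (.vietoris X) _ _ (@Continuous.comp _ _ _ _ _ (.vietoris X) _ _
        NonemptyCompacts.continuous_coe f1)) (hQ.1.imp fun p hp => ⟨hp, (f2 p).2⟩)⟩
  have sU : ∀ p, U {p} = F p := fun p => NonemptyCompacts.ext (by simp [hU])
  have mU : Monotone U := fun A B h => by
    change (U A : Set X) ⊆ U B
    rw [hU, hU]
    exact biUnion_subset_biUnion_left h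
  have s1 : ContinuousOn (μ ∘ U) {Q | IsConnected (Q : Set P)} := h1.comp cU.continuousOn nU
  have cW := level (t := t) s1 (fun A B a b h => mo _ _ (nU A a) (nU B b) (mU h))
    (fun p => by simpa [sU] using f3 p) (by
      obtain ⟨K, k1, k2⟩ := h3
      obtain ⟨p, rfl⟩ := f4 K k1 k2
      exact k2 ▸ mo _ _ k1 (nU _ isConnected_univ) (sU p ▸ mU le_top))
  have := isConnected_iff_connectedSpace.1 cW
  have := isCompact_iff_compactSpace.1 (show IsCompact
    {Q : NonemptyCompacts P | IsConnected (Q : Set P) ∧ (μ ∘ U) Q = t} from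
    (s1.preimage_isClosed_of_isClosed closed_conn isClosed_singleton).isCompact)
  have cL : IsCompact {K : NonemptyCompacts X | IsConnected (K : Set X) ∧ μ K = t} :=
    (h1.preimage_isClosed_of_isClosed closed_conn isClosed_singleton).isCompact
  have := isCompact_iff_compactSpace.1 cL
  refine klem (W := {Q : NonemptyCompacts P | IsConnected (Q : Set P) ∧ (μ ∘ U) Q = t})
    (Φ := fun Q => ⟨U Q.1, nU _ Q.2.1, Q.2.2⟩) (by fun_prop) (fun K => ?_) fun ε hε => ?_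
  · obtain ⟨p, hp⟩ := f4 K.1 K.2.1 K.2.2
    exact ⟨⟨{p}, isConnected_singleton, by simpa [sU, hp] using K.2.2⟩,
      Subtype.ext ((sU p).trans hp)⟩
  obtain ⟨η, e1, e2⟩ := ((cL.prod cL).inter_right (isClosed_le (f := fun _ => ε) continuous_const
    continuous_dist)).exists_forall_le' (a := 0) (f := fun z => dist (z.1 ⊔ z.2) z.2)
    ((continuous_fst.sup continuous_snd).dist continuous_snd).continuousOn fun z hz =>
      dist_pos.2 fun e => by
        have a1 : ε ≤ dist z.1 z.2 := hz.2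
        rcases (sup_eq_right.1 e).eq_or_lt with h | h
        · rw [h, dist_self] at a1
          linarith
        · exact (h2 _ _ hz.1.1.1 hz.1.2.1 h).ne (hz.1.1.2.trans hz.1.2.2.symm)
  obtain ⟨ρ, r1, r2⟩ := un _ (half_pos e1)
  obtain ⟨g, g1, g2⟩ := hP ρ r1
  obtain ⟨lo, hi, h⟩ := lh_ex g1
  have key : ∀ Q Q' : {Q : NonemptyCompacts P | IsConnected (Q : Set P) ∧ (μ ∘ U) Q = t},
      lo Q' ≤ lo Q → hi Q ≤ hi Q' → dist (U Q) (U Q') < ε := fun Q Q' a b => by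
    by_contra! c
    refine (e2 (U Q, U Q') ⟨⟨⟨nU _ Q.2.1, Q.2.2⟩, nU _ Q'.2.1, Q'.2.2⟩, c⟩).not_gt
      ((hausdorffDist_le_of_mem_dist (half_pos e1).le ?_ fun x hx =>
        ⟨x, Or.inr hx, by simpa using (half_pos e1).le⟩).trans_lt (half_lt_self e1))
    rintro x (hx | hx)
    · refine r2 _ _ (fun p hp => ?_) x hx
      obtain ⟨k1, k2⟩ := (h.2.2.2 _).1 p hp
      obtain ⟨p', p1, p2⟩ := h.ivt Q'.2.1.2 (a.trans k1) (k2.trans b)
      exact ⟨p', p1, (dist_le_diam_of_mem isBounded_of_compactSpace (s := g ⁻¹' {g p}) rfl p2).trans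
        (g2 _).le⟩
    · exact ⟨x, hx, by simpa using (half_pos e1).le⟩
  refine ⟨fun Q => lo Q + hi Q, (h.2.1.add h.2.2.1).comp continuous_subtype_val, fun Q Q' e => ?_⟩
  rcases le_total (lo Q) (lo Q') with c | c
  · exact dist_comm (U Q') _ ▸ key Q' Q c (by linarith)
  · exact key Q Q' c (by linarith)

theorem main {X : Type} [MetricSpace X] [CompactSpace X] (hX : WC X)
    {μ : NonemptyCompacts X → ℝ} (h1 : ContinuousOn μ {Q | IsConnected (Q : Set X)})
    (h0 : ∀ K : NonemptyCompacts X, (∃ x : X, (K : Set X) = {x}) → μ K = 0)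
    (h2 : ∀ A B : NonemptyCompacts X, IsConnected (A : Set X) → IsConnected (B : Set X) →
      (A : Set X) ⊂ (B : Set X) → μ A < μ B) {t : ℝ}
    (h3 : ∃ K : NonemptyCompacts X, IsConnected (K : Set X) ∧ μ K = t) :
    WC {K : NonemptyCompacts X | IsConnected (K : Set X) ∧ μ K = t} := by
  obtain ⟨Y, _, _, _, hY, f, f1, f2⟩ := hX
  have mo : ∀ A B : NonemptyCompacts X, IsConnected (A : Set X) → IsConnected (B : Set X) → A ≤ B →
      μ A ≤ μ B := fun A B a b h => h.eq_or_lt.elim (fun h => (congrArg μ h).le) fun h =>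
    (h2 A B a b h).le
  let T := {K : NonemptyCompacts X | IsConnected (K : Set X) ∧ μ K ≤ t}
  have := isCompact_iff_compactSpace.1 (show IsCompact T from
    (h1.preimage_isClosed_of_isClosed closed_conn isClosed_Iic).isCompact)
  obtain ⟨K0, k1, k2⟩ := h3
  have : Nonempty T := ⟨⟨K0, k1, k2.le⟩⟩
  have t0 : ∀ x : X, μ {x} ≤ t := fun x => by
    obtain ⟨y, hy⟩ := K0.nonempty
    rw [h0 {x} ⟨x, rfl⟩, ← h0 {y} ⟨y, rfl⟩, ← k2]
    exact mo _ _ isConnected_singleton k1 (singleton_subset_iff.2 hy)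
  obtain ⟨a, a1, a2⟩ := arcs Y
  obtain ⟨b, b1, b2⟩ := arcs X
  have : ∀ z : T, ∃ y, ({f y} : NonemptyCompacts X) ≤ z := fun z => by
    obtain ⟨x, hx⟩ := z.1.nonempty
    obtain ⟨y, rfl⟩ := f2 x
    exact ⟨y, singleton_subset_iff.2 hx⟩
  choose y hy using this
  have a3 := fun y : Y => a1 {y} ⊤ isConnected_singleton isConnected_univ le_top
  have b3 := fun z : T => b1 {f (y z)} z isConnected_singleton z.2.1 (hy z)
  let y0 := Classical.arbitrary Y
  obtain ⟨P, _, _, _, hP, F, F1, F2⟩ := hair (Z := T) (K := T) hY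
    (f := fun y => ⟨{f y}, isConnected_singleton, t0 _⟩)
    ((NonemptyCompacts.continuous_singleton.comp f1).subtype_mk _)
    (fun z r => if r ≤ 1 / 2 then a {y z} ⊤ (2 * r) else a {y0} ⊤ (2 - 2 * r))
    (fun z r => ⟨b {f (y z)} z (1 - r), ((b3 z).2.2.2 _).1,
      (mo _ _ ((b3 z).2.2.2 _).1 z.2.1 ((b3 z).2.2.2 _).2.2).trans z.2.2⟩)
    (fun z r => by
      split_ifs
      exacts [((a3 _).2.2.2 _).1.2, ((a3 _).2.2.2 _).1.2])
    (fun ε hε => by
      obtain ⟨δ, d1, d2⟩ := a2 _ (half_pos hε)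
      obtain ⟨δ', d3, d4⟩ := b2 _ hε
      refine ⟨min δ δ' / 2, half_pos (lt_min d1 d3), fun z r r' e => max_le ?_ (d4 _ _ _ _ ?_)⟩
      · obtain ⟨e1, e2⟩ := abs_le.1 e
        have e3 := min_le_left δ δ'
        have k : ∀ (y y' : Y) r r', |r - 1| ≤ δ → |1 - r'| ≤ δ →
            dist (a {y} ⊤ r) (a {y'} ⊤ r') ≤ ε := fun y y' r r' c c' => by
          have c1 := d2 {y} ⊤ _ _ c
          have c2 := d2 {y'} ⊤ _ _ c'
          rw [(a3 _).2.1] at c1 c2
          linarith [dist_triangle (a {y} ⊤ r) ⊤ (a {y'} ⊤ r')]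
        dsimp only
        split_ifs
        · exact (d2 _ _ _ _ (abs_le.2 ⟨by linarith, by linarith⟩)).trans (half_le_self hε.le)
        · exact k _ _ _ _ (abs_le.2 ⟨by linarith, by linarith⟩) (abs_le.2 ⟨by linarith, by linarith⟩)
        · exact k _ _ _ _ (abs_le.2 ⟨by linarith, by linarith⟩) (abs_le.2 ⟨by linarith, by linarith⟩)
        · exact (d2 _ _ _ _ (abs_le.2 ⟨by linarith, by linarith⟩)).trans (half_le_self hε.le)
      · obtain ⟨e1, e2⟩ := abs_le.1 e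
        exact abs_le.2 ⟨by linarith [min_le_right δ δ'], by linarith [min_le_right δ δ']⟩)
    y0 (fun z => by norm_num [(a3 _).1])
    (fun z => ⟨y z, by norm_num [(a3 _).1], Subtype.ext (by simp [(b3 z).1])⟩)
    fun z => ⟨z, Subtype.ext (by simp [(b3 z).2.1])⟩
  refine top hP h1 h2 (F := fun p => (F p).1) (continuous_subtype_val.comp F1) (fun p => (F p).2.1)
    (fun p => (F p).2.2) (fun K a b => ?_) ⟨K0, k1, k2⟩
  obtain ⟨p, hp⟩ := F2 ⟨K, a, b.le⟩
  exact ⟨p, congrArg Subtype.val hp⟩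

end Pool.Agent.H.MP_4bbdcb_gt
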